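import Mathlib

/-!
# Cohomology classes of a group and of a subgroup of index two (abstract part)
-/

set_option autoImplicit false

namespace Pool.Agent.H55.PR

open Matrix

variable {G E : Type} [Group G] [Field E] {n : ℕ}

/-- the cocycles of the subgroup `H` -/
def Coc (M : G →* Matrix (Fin n) (Fin n) E) (H : Subgroup G) : Submodule E (H → Fin n → E) where
  carrier := {z | ∀ σ τ : H, z (σ * τ) = z σ + M σ *ᵥ z τ}
  add_mem' := by
    intro a b ha hb σ τ
    simp only [Pi.add_apply, ha σ τ, hb σ τ, mulVec_add]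
    abel
  zero_mem' := by
    intro σ τ
    simp
  smul_mem' := by
    intro x a ha σ τ
    simp only [Pi.smul_apply, ha σ τ, mulVec_smul, smul_add]

/-- the coboundaries of the subgroup `H` -/
def Cob (M : G →* Matrix (Fin n) (Fin n) E) (H : Subgroup G) : Submodule E (H → Fin n → E) where
  carrier := {z | ∃ v : Fin n → E, ∀ σ : H, z σ = M σ *ᵥ v - v}
  add_mem' := by
    rintro a b ⟨v, hv⟩ ⟨w, hw⟩
    refine ⟨v + w, fun σ => ?_⟩
    simp only [Pi.add_apply, hv σ, hw σ, mulVec_add]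
    abel
  zero_mem' := ⟨0, fun σ => by simp⟩
  smul_mem' := by
    rintro x a ⟨v, hv⟩
    refine ⟨x • v, fun σ => ?_⟩
    simp only [Pi.smul_apply, hv σ, mulVec_smul, smul_sub]

/-- the cocycles of `G` -/
def CocG (M : G →* Matrix (Fin n) (Fin n) E) : Submodule E (G → Fin n → E) where
  carrier := {z | ∀ σ τ : G, z (σ * τ) = z σ + M σ *ᵥ z τ}
  add_mem' := by
    intro a b ha hb σ τ
    simp only [Pi.add_apply, ha σ τ, hb σ τ, mulVec_add]
    abel
  zero_mem' := by
    intro σ τ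
    simp
  smul_mem' := by
    intro x a ha σ τ
    simp only [Pi.smul_apply, ha σ τ, mulVec_smul, smul_add]

/-- the coboundaries of `G` -/
def CobG (M : G →* Matrix (Fin n) (Fin n) E) : Submodule E (G → Fin n → E) where
  carrier := {z | ∃ v : Fin n → E, ∀ σ : G, z σ = M σ *ᵥ v - v}
  add_mem' := by
    rintro a b ⟨v, hv⟩ ⟨w, hw⟩
    refine ⟨v + w, fun σ => ?_⟩
    simp only [Pi.add_apply, hv σ, hw σ, mulVec_add]
    abel
  zero_mem' := ⟨0, fun σ => by simp⟩
  smul_mem' := by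
    rintro x a ⟨v, hv⟩
    refine ⟨x • v, fun σ => ?_⟩
    simp only [Pi.smul_apply, hv σ, mulVec_smul, smul_sub]

/-- the restriction of a function to the subgroup -/
def res (H : Subgroup G) : (G → Fin n → E) →ₗ[E] (H → Fin n → E) where
  toFun a := fun σ => a σ
  map_add' _ _ := rfl
  map_smul' _ _ := rfl

open Classical in
/-- the extension of a cocycle of `H` to `G = H ∪ H c` -/
noncomputable def ext (H : Subgroup G) (c : G) (z : H → Fin n → E) (σ : G) : Fin n → E :=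
  if h : σ ∈ H then z ⟨σ, h⟩ else if h' : σ * c⁻¹ ∈ H then z ⟨σ * c⁻¹, h'⟩ else 0

lemma ext_mem {H : Subgroup G} {c : G} {z : H → Fin n → E} {σ : G} (h : σ ∈ H) :
    ext H c z σ = z ⟨σ, h⟩ := by
  unfold ext
  rw [dif_pos h]

lemma ext_not {H : Subgroup G} {c : G} {z : H → Fin n → E} {σ : G} (h : σ ∉ H)
    (h' : σ * c⁻¹ ∈ H) : ext H c z σ = z ⟨σ * c⁻¹, h'⟩ := by
  unfold ext
  rw [dif_neg h, dif_pos h']

/-- the corestriction -/
noncomputable def cor (M : G →* Matrix (Fin n) (Fin n) E) (H : Subgroup G) (c : G) :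
    (H → Fin n → E) →ₗ[E] (G → Fin n → E) where
  toFun z := fun σ => ext H c z σ + M c⁻¹ *ᵥ ext H c z (c * σ)
  map_add' := by
    intro z w
    have h : ∀ σ, ext H c (z + w) σ = ext H c z σ + ext H c w σ := by
      intro σ
      unfold ext
      split_ifs <;> simp
    funext σ
    simp only [h, Pi.add_apply, mulVec_add]
    abel
  map_smul' := by
    intro x z
    have h : ∀ σ, ext H c (x • z) σ = x • ext H c z σ := by
      intro σ
      unfold ext
      split_ifs <;> simp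
    funext σ
    simp only [h, Pi.smul_apply, mulVec_smul, smul_add, RingHom.id_apply]

lemma cor_apply (M : G →* Matrix (Fin n) (Fin n) E) (H : Subgroup G) (c : G) (z : H → Fin n → E)
    (σ : G) : cor M H c z σ = ext H c z σ + M c⁻¹ *ᵥ ext H c z (c * σ) := rfl

section two

variable {M M' : G →* Matrix (Fin n) (Fin n) E} {H : Subgroup G} (hi : H.index = 2) {c : G}
  (hc : c ∉ H)

include hi hc

lemma mul_c {σ : G} (h : σ ∉ H) : σ * c⁻¹ ∈ H := by
  rw [Subgroup.mul_mem_iff_of_index_two hi, inv_mem_iff]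
  tauto

lemma c_mul {σ : G} (h : σ ∉ H) : c * σ ∈ H := by
  rw [Subgroup.mul_mem_iff_of_index_two hi]
  tauto

lemma c_mul' {σ : G} (h : σ ∈ H) : c * σ ∉ H := by
  rw [Subgroup.mul_mem_iff_of_index_two hi]
  tauto

lemma conj {σ : G} (h : σ ∈ H) : c * σ * c⁻¹ ∈ H := mul_c hi hc (c_mul' hi hc h)

lemma cor_mem (z : H → Fin n → E) {σ : G} (h : σ ∈ H) :
    cor M H c z σ = z ⟨σ, h⟩ + M c⁻¹ *ᵥ z ⟨c * σ * c⁻¹, conj hi hc h⟩ := by
  rw [cor_apply, ext_mem h, ext_not (c_mul' hi hc h) (conj hi hc h)]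

lemma cor_not (z : H → Fin n → E) {σ : G} (h : σ ∉ H) :
    cor M H c z σ = z ⟨σ * c⁻¹, mul_c hi hc h⟩ + M c⁻¹ *ᵥ z ⟨c * σ, c_mul hi hc h⟩ := by
  rw [cor_apply, ext_not h (mul_c hi hc h), ext_mem (c_mul hi hc h)]

lemma ext_mul {z : H → Fin n → E} (hz : z ∈ Coc M H) {h : G} (hh : h ∈ H) (σ : G) :
    ext H c z (h * σ) = z ⟨h, hh⟩ + M h *ᵥ ext H c z σ := by
  by_cases hσ : σ ∈ H
  · rw [ext_mem (H.mul_mem hh hσ), ext_mem hσ]
    exact hz ⟨h, hh⟩ ⟨σ, hσ⟩
  · have h1 : h * σ ∉ H := by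
      rw [Subgroup.mul_mem_iff_of_index_two hi]
      tauto
    rw [ext_not h1 (mul_c hi hc h1), ext_not hσ (mul_c hi hc hσ)]
    have h2 := hz ⟨h, hh⟩ ⟨σ * c⁻¹, mul_c hi hc hσ⟩
    rw [← h2]
    congr 1
    apply Subtype.ext
    show h * σ * c⁻¹ = h * (σ * c⁻¹)
    group

omit hi hc in
lemma M_inv (M : G →* Matrix (Fin n) (Fin n) E) (c : G) : M c⁻¹ * M c = 1 ∧ M c * M c⁻¹ = 1 := by
  rw [← map_mul, ← map_mul]
  simp

theorem cor_coc {z : H → Fin n → E} (hz : z ∈ Coc M H) : cor M H c z ∈ CocG M := by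
  intro σ τ
  have e1 : M c⁻¹ * M c = 1 := (M_inv M c).1
  by_cases hσ : σ ∈ H
  · have h1 := ext_mul hi hc hz hσ τ
    have h2 := ext_mul hi hc hz (conj hi hc hσ) (c * τ)
    have h3 : c * σ * c⁻¹ * (c * τ) = c * (σ * τ) := by group
    rw [h3] at h2
    rw [cor_apply, h1, h2, cor_mem hi hc z hσ, cor_apply, mulVec_add, mulVec_add, mulVec_mulVec,
      mulVec_mulVec, ← map_mul, ← map_mul]
    have h4 : c⁻¹ * (c * σ * c⁻¹) = σ * c⁻¹ := by group
    rw [h4]
    abel
  · have h1 := ext_mul hi hc hz (mul_c hi hc hσ) (c * τ)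
    have h2 := ext_mul hi hc hz (c_mul hi hc hσ) τ
    have h3 : σ * c⁻¹ * (c * τ) = σ * τ := by group
    have h5 : c * σ * τ = c * (σ * τ) := by group
    rw [h3] at h1
    rw [h5] at h2
    rw [cor_apply, h1, h2, cor_not hi hc z hσ, cor_apply, mulVec_add, mulVec_add, mulVec_mulVec,
      mulVec_mulVec, ← map_mul, ← map_mul]
    have h4 : c⁻¹ * (c * σ) = σ := by group
    rw [h4]
    abel

theorem cor_cob {z : H → Fin n → E} (hz : z ∈ Cob M H) : cor M H c z ∈ CobG M := by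
  obtain ⟨v, hv⟩ := hz
  refine ⟨v + M c⁻¹ *ᵥ v, fun σ => ?_⟩
  by_cases hσ : σ ∈ H
  · rw [cor_mem hi hc z hσ, hv, hv]
    simp only [mulVec_add, mulVec_sub, mulVec_mulVec, ← map_mul]
    have h4 : c⁻¹ * (c * σ * c⁻¹) = σ * c⁻¹ := by group
    rw [h4]
    abel
  · rw [cor_not hi hc z hσ, hv, hv]
    simp only [mulVec_add, mulVec_sub, mulVec_mulVec, ← map_mul]
    have h4 : c⁻¹ * (c * σ) = σ := by group
    rw [h4]
    abel

omit hi hc in
lemma coc_one {a : G → Fin n → E} (ha : a ∈ CocG M) : a 1 = 0 := by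
  have h := ha 1 1
  rw [mul_one, map_one, one_mulVec] at h
  simpa using h

omit hi hc in
lemma coc_inv {a : G → Fin n → E} (ha : a ∈ CocG M) (c : G) : a c⁻¹ = -(M c⁻¹ *ᵥ a c) := by
  have h := ha c⁻¹ c
  rw [inv_mul_cancel, coc_one ha] at h
  exact eq_neg_of_add_eq_zero_left h.symm

/-- `cor (res a) = 2 a` up to a coboundary -/
theorem cor_res {a : G → Fin n → E} (ha : a ∈ CocG M) :
    cor M H c (res H a) - (2 : E) • a ∈ CobG M := by
  refine ⟨-(M c⁻¹ *ᵥ a c), fun σ => ?_⟩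
  have e0 := coc_inv ha c
  simp only [Pi.sub_apply, Pi.smul_apply]
  by_cases hσ : σ ∈ H
  · rw [cor_mem hi hc _ hσ]
    show a σ + M c⁻¹ *ᵥ a (c * σ * c⁻¹) - (2 : E) • a σ = _
    rw [ha (c * σ) c⁻¹, ha c σ, e0]
    simp only [mulVec_add, mulVec_neg, mulVec_mulVec, ← map_mul]
    have h4 : c⁻¹ * (c * σ * c⁻¹) = σ * c⁻¹ := by group
    have h5 : c⁻¹ * c = 1 := by group
    rw [h4, h5, map_one, one_mulVec, two_smul]
    abel
  · rw [cor_not hi hc _ hσ]
    show a (σ * c⁻¹) + M c⁻¹ *ᵥ a (c * σ) - (2 : E) • a σ = _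
    rw [ha σ c⁻¹, ha c σ, e0]
    simp only [mulVec_add, mulVec_neg, mulVec_mulVec, ← map_mul]
    have h5 : c⁻¹ * c = 1 := by group
    rw [h5, map_one, one_mulVec, two_smul]
    abel

/-- `cor' (res a) = 0` up to a coboundary -/
theorem cor_res' (hM : ∀ σ ∈ H, M' σ = M σ) (hM' : ∀ σ ∉ H, M' σ = -M σ) {a : G → Fin n → E}
    (ha : a ∈ CocG M) : cor M' H c (res H a) ∈ CobG M' := by
  have hcc : c⁻¹ ∉ H := by rwa [inv_mem_iff]
  refine ⟨M c⁻¹ *ᵥ a c, fun σ => ?_⟩
  have e0 := coc_inv ha c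
  by_cases hσ : σ ∈ H
  · rw [cor_mem hi hc _ hσ, hM' _ hcc, hM _ hσ]
    show a σ + -M c⁻¹ *ᵥ a (c * σ * c⁻¹) = _
    rw [ha (c * σ) c⁻¹, ha c σ, e0]
    simp only [mulVec_add, mulVec_neg, mulVec_mulVec, Matrix.neg_mul, ← map_mul, neg_mulVec]
    have h4 : c⁻¹ * (c * σ * c⁻¹) = σ * c⁻¹ := by group
    have h5 : c⁻¹ * c = 1 := by group
    rw [h4, h5, map_one, one_mulVec]
    abel
  · rw [cor_not hi hc _ hσ, hM' _ hcc, hM' _ hσ]
    show a (σ * c⁻¹) + -M c⁻¹ *ᵥ a (c * σ) = _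
    rw [ha σ c⁻¹, ha c σ, e0]
    simp only [mulVec_add, mulVec_neg, mulVec_mulVec, Matrix.neg_mul, ← map_mul, neg_mulVec]
    have h5 : c⁻¹ * c = 1 := by group
    rw [h5, map_one, one_mulVec]
    abel

/-- `res (cor z) + res (cor' z) = 2 z` -/
theorem res_cor (hM' : ∀ σ ∉ H, M' σ = -M σ) (z : H → Fin n → E) :
    res H (cor M H c z) + res H (cor M' H c z) = (2 : E) • z := by
  have hcc : c⁻¹ ∉ H := by rwa [inv_mem_iff]
  funext σ
  show cor M H c z σ + cor M' H c z σ = (2 : E) • z σ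
  rw [cor_mem hi hc z σ.2, cor_mem hi hc z σ.2, hM' _ hcc, neg_mulVec, two_smul]
  show z σ + _ + (z σ + -_) = z σ + z σ
  abel

end two

/-- the classes of the elements of `S` -/
abbrev Q {W : Type} [AddCommGroup W] [Module E W] (S B : Submodule E W) : Type :=
  S ⧸ B.submoduleOf S

/-- the linear map of the classes -/
noncomputable def qmap {W W' : Type} [AddCommGroup W] [Module E W] [AddCommGroup W'] [Module E W']
    {S B : Submodule E W} {S' B' : Submodule E W'} (f : W →ₗ[E] W') (h : ∀ x ∈ S, f x ∈ S')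
    (h' : ∀ x ∈ B, f x ∈ B') : Q S B →ₗ[E] Q S' B' :=
  Submodule.mapQ _ _ (f.restrict h) (by
    rintro ⟨x, hx⟩ hxB
    exact h' x hxB)

lemma qmap_mk {W W' : Type} [AddCommGroup W] [Module E W] [AddCommGroup W'] [Module E W']
    {S B : Submodule E W} {S' B' : Submodule E W'} (f : W →ₗ[E] W') (h : ∀ x ∈ S, f x ∈ S')
    (h' : ∀ x ∈ B, f x ∈ B') (x : S) :
    qmap (B := B) (B' := B') f h h' (Submodule.Quotient.mk x) =
      Submodule.Quotient.mk ⟨f x, h x x.2⟩ := rfl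

lemma qmk_eq {W : Type} [AddCommGroup W] [Module E W] {S B : Submodule E W} {x y : S}
    (h : (x : W) - y ∈ B) :
    (Submodule.Quotient.mk x : Q S B) = Submodule.Quotient.mk y := by
  rw [Submodule.Quotient.eq]
  exact h

section main

variable {M M' : G →* Matrix (Fin n) (Fin n) E} {H : Subgroup G} {c : G}
  {S : Submodule E (G → Fin n → E)} {S' : Submodule E (G → Fin n → E)}
  {T : Submodule E (H → Fin n → E)}

/-- **The classes of the subgroup of index two are the sum of the classes of the group with values in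
the two representations.** -/
theorem equiv (h2 : (2 : E) ≠ 0) (hi : H.index = 2) (hc : c ∉ H) (hM : ∀ σ ∈ H, M' σ = M σ)
    (hM' : ∀ σ ∉ H, M' σ = -M σ) (hS : S ≤ CocG M) (hS' : S' ≤ CocG M')
    (r : ∀ a ∈ S, res H a ∈ T) (r' : ∀ a ∈ S', res H a ∈ T)
    (k : ∀ z ∈ T, cor M H c z ∈ S) (k' : ∀ z ∈ T, cor M' H c z ∈ S') :
    Nonempty (Q T (Cob M H) ≃ₗ[E] Q S (CobG M) × Q S' (CobG M')) := by
  have hTC : ∀ z ∈ Cob M H, z ∈ Cob M' H := by
    rintro z ⟨v, hv⟩
    exact ⟨v, fun σ => by rw [hM _ σ.2, hv]⟩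
  let f1 : Q T (Cob M H) →ₗ[E] Q S (CobG M) := qmap (cor M H c) k fun z hz => cor_cob hi hc hz
  let f2 : Q T (Cob M H) →ₗ[E] Q S' (CobG M') := qmap (cor M' H c) k' fun z hz =>
    cor_cob hi hc (hTC z hz)
  let g1 : Q S (CobG M) →ₗ[E] Q T (Cob M H) := qmap (res H) r (by
    rintro z ⟨v, hv⟩
    exact ⟨v, fun σ => hv σ⟩)
  let g2 : Q S' (CobG M') →ₗ[E] Q T (Cob M H) := qmap (res H) r' (by
    rintro z ⟨v, hv⟩
    exact ⟨v, fun σ => by rw [← hM _ σ.2]; exact hv σ⟩)
  have a11 : ∀ x : S, f1 (g1 (Submodule.Quotient.mk x)) = (2 : E) • Submodule.Quotient.mk x := by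
    intro x
    rw [← Submodule.Quotient.mk_smul]
    exact qmk_eq (cor_res hi hc (hS x.2))
  have a22 : ∀ x : S', f2 (g2 (Submodule.Quotient.mk x)) = (2 : E) • Submodule.Quotient.mk x := by
    intro x
    rw [← Submodule.Quotient.mk_smul]
    exact qmk_eq (cor_res hi hc (hS' x.2))
  have a12 : ∀ x : S, f2 (g1 (Submodule.Quotient.mk x)) = 0 := by
    intro x
    show Submodule.Quotient.mk _ = _
    rw [Submodule.Quotient.mk_eq_zero]
    exact cor_res' hi hc hM hM' (hS x.2)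
  have a21 : ∀ x : S', f1 (g2 (Submodule.Quotient.mk x)) = 0 := by
    intro x
    show Submodule.Quotient.mk _ = _
    rw [Submodule.Quotient.mk_eq_zero]
    exact cor_res' (M := M') (M' := M) hi hc (fun σ h => (hM σ h).symm)
      (fun σ h => by rw [hM' σ h, neg_neg]) (hS' x.2)
  have b : ∀ x : T, g1 (f1 (Submodule.Quotient.mk x)) + g2 (f2 (Submodule.Quotient.mk x)) =
      (2 : E) • Submodule.Quotient.mk x := by
    intro x
    rw [← Submodule.Quotient.mk_smul]
    show Submodule.Quotient.mk _ + Submodule.Quotient.mk _ = _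
    rw [← Submodule.Quotient.mk_add]
    refine qmk_eq ?_
    have h := res_cor hi hc (M := M) hM' (x : H → Fin n → E)
    show res H (cor M H c x) + res H (cor M' H c x) - (2 : E) • (x : H → Fin n → E) ∈ _
    rw [h, sub_self]
    exact zero_mem _
  have hh : (2 : E)⁻¹ * 2 = 1 := inv_mul_cancel₀ h2
  refine ⟨LinearEquiv.ofLinearMap (f1.prod f2) ((2 : E)⁻¹ • (g1.coprod g2)) ?_ ?_⟩
  · refine LinearMap.ext fun x => ?_
    obtain ⟨x1, x2⟩ := x
    induction x1 using Submodule.Quotient.induction_on with | _ x1 => ?_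
    induction x2 using Submodule.Quotient.induction_on with | _ x2 => ?_
    simp only [LinearMap.comp_apply, LinearMap.smul_apply, LinearMap.coprod_apply, map_smul,
      LinearMap.prod_apply, Function.prod_apply, map_add, a11, a12, a21, a22, LinearMap.id_apply]
    refine Prod.ext ?_ ?_
    · show (2 : E)⁻¹ • ((2 : E) • Submodule.Quotient.mk x1 + 0) = Submodule.Quotient.mk x1
      rw [add_zero, smul_smul, hh, one_smul]
    · show (2 : E)⁻¹ • (0 + (2 : E) • Submodule.Quotient.mk x2) = Submodule.Quotient.mk x2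
      rw [zero_add, smul_smul, hh, one_smul]
  · refine LinearMap.ext fun x => ?_
    induction x using Submodule.Quotient.induction_on with | _ x => ?_
    simp only [LinearMap.comp_apply, LinearMap.smul_apply, LinearMap.prod_apply, Function.prod_apply,
      LinearMap.coprod_apply, b, LinearMap.id_apply, smul_smul, hh, one_smul]

end main

end Pool.Agent.H55.PR
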