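import Pool.Agent.W97.TW.Hecke
import Pool.Agent.H385R2.EcD1

/-!
The twisted `L`-functions of a newform of level `N` by primitive quadratic characters of conductor
prime to `N`: continuation, functional equation and the parity of the order at the centre.
-/

set_option autoImplicit false

open UpperHalfPlane MatrixGroups CongruenceSubgroup Filter Topology

namespace Pool.Agent.H55.PR

open Pool.Agent.W97.TW

/-- parity of the order of a function with a functional equation -/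
lemma order_parity {G : ℂ → ℂ} (hG : Differentiable ℂ G) {ε : ℂ}
    (h : ∀ s, G (1 - s) = ε * G s) (hne : ∃ s, G s ≠ 0) :
    ∃ n : ℕ, analyticOrderAt G (1 / 2) = n ∧ ε = (-1) ^ n := by
  have han : ∀ z, AnalyticAt ℂ G z := fun z => hG.analyticAt z
  have htop : analyticOrderAt G (1 / 2) ≠ ⊤ := by
    intro ht
    rw [analyticOrderAt_eq_top] at ht
    obtain ⟨s, hs⟩ := hne
    have h1 := (AnalyticOnNhd.eqOn_zero_of_preconnected_of_eventuallyEq_zero
      (f := G) (U := Set.univ) (fun z _ => han z) isPreconnected_univ (Set.mem_univ (1 / 2)) ht)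
    exact hs (h1 (Set.mem_univ s))
  obtain ⟨n, hn⟩ := ENat.ne_top_iff_exists.1 htop
  refine ⟨n, hn.symm, ?_⟩
  obtain ⟨g, hg, hg0, hev⟩ := ((han (1 / 2)).analyticOrderAt_eq_natCast).1 hn.symm
  have hmap : Tendsto (fun s : ℂ => 1 - s) (𝓝 (1 / 2)) (𝓝 (1 / 2)) := by
    have : ContinuousAt (fun s : ℂ => 1 - s) (1 / 2) := by fun_prop
    have h2 := this.tendsto
    norm_num at h2 ⊢
    exact h2
  have hev2 := hmap.eventually hev
  have h3 : ∀ᶠ s in 𝓝[≠] (1 / 2 : ℂ), (-1) ^ n * g (1 - s) = ε * g s := by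
    rw [eventually_nhdsWithin_iff]
    filter_upwards [hev, hev2] with s h4 h5 h6
    have h7 := h s
    rw [h5, h4, smul_eq_mul, smul_eq_mul] at h7
    have h8 : (s - 1 / 2 : ℂ) ^ n ≠ 0 := pow_ne_zero _ (sub_ne_zero.2 h6)
    have h9 : (1 - s - 1 / 2 : ℂ) ^ n = (-1) ^ n * (s - 1 / 2) ^ n := by
      rw [← mul_pow]
      congr 1
      ring
    rw [h9] at h7
    apply mul_left_cancel₀ h8
    linear_combination h7
  have h4 : Tendsto (fun s => (-1) ^ n * g (1 - s)) (𝓝[≠] (1 / 2 : ℂ)) (𝓝 ((-1) ^ n * g (1 / 2))) :=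
    ((hg.continuousAt.tendsto.comp hmap).const_mul _).mono_left nhdsWithin_le_nhds
  have h5 : Tendsto (fun s => ε * g s) (𝓝[≠] (1 / 2 : ℂ)) (𝓝 (ε * g (1 / 2))) :=
    (hg.continuousAt.tendsto.const_mul _).mono_left nhdsWithin_le_nhds
  have h6 := tendsto_nhds_unique (h4.congr' h3) h5
  exact (mul_right_cancel₀ hg0 h6).symm

variable {N : ℕ} {k : ℤ} {f : CuspForm (Gamma0 N : Subgroup (GL (Fin 2) ℝ)) k}

lemma fricke_ne_zero (hf : ∃ z, f z ≠ 0) (hN : 0 < N) {W : ℂ}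
    (hW : ∀ z : ℍ, f (ofComplex (-1 / ((N : ℂ) * z))) = W * (z : ℂ) ^ k * f z) : W ≠ 0 := by
  rintro rfl
  obtain ⟨z, hz⟩ := hf
  apply hz
  have hNC : (N : ℂ) ≠ 0 := by exact_mod_cast hN.ne'
  have hi : 0 < (-1 / ((N : ℂ) * z)).im := by
    rw [neg_div, Complex.neg_im, one_div, Complex.inv_im, neg_div, neg_neg]
    have h1 : 0 < ((N : ℂ) * z).im := by
      rw [Complex.mul_im]
      simp only [Complex.natCast_re, Complex.natCast_im, zero_mul, add_zero]
      have : (0 : ℝ) < N := by exact_mod_cast hN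
      exact mul_pos this z.im_pos
    exact div_pos h1 (Complex.normSq_pos.2 (ne_zero_of_im h1))
  have h := hW ⟨_, hi⟩
  have h0 : (z : ℂ) ≠ 0 := ne_zero_of_im z.im_pos
  have h2 : -1 / ((N : ℂ) * ((⟨-1 / ((N : ℂ) * z), hi⟩ : ℍ) : ℂ)) = z := by
    change -1 / ((N : ℂ) * (-1 / ((N : ℂ) * z))) = z
    field_simp
  rw [h2, ofComplex_apply] at h
  simpa using h

/-- the Euler factor of `L(f ⊗ ψ, s)` at `p` (analytic normalisation), `x = ψ(p)` -/
noncomputable def EF (N : ℕ) (k : ℤ) (f : CuspForm (Gamma0 N : Subgroup (GL (Fin 2) ℝ)) k)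
    (p : ℕ) (x s : ℂ) : ℂ :=
  1 - lam N k f p * x * (p : ℂ) ^ (-s) + (if p ∣ N then 0 else 1) * x ^ 2 * (p : ℂ) ^ (-2 * s)

lemma cpow_half {n : ℕ} (hn : 0 < n) (k : ℤ) :
    ‖(n : ℂ) ^ (-(((k : ℂ) - 1) / 2))‖ = (n : ℝ) ^ (-(((k : ℝ) - 1) / 2)) := by
  rw [← Complex.ofReal_natCast, Complex.norm_cpow_eq_rpow_re_of_pos (by exact_mod_cast hn)]
  congr 1
  have : (-(((k : ℂ) - 1) / 2)) = ((-(((k : ℝ) - 1) / 2) : ℝ) : ℂ) := by push_cast; rfl
  rw [this, Complex.ofReal_re]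

lemma lam_zero [NeZero N] : lam N k f 0 = 0 := by
  have h := A_zero f
  unfold A at h
  unfold lam
  rw [h, zero_mul]

lemma lam_bound [NeZero N] : ∃ C : ℝ, ∀ n : ℕ, ‖lam N k f n‖ ≤ C * Real.sqrt n := by
  obtain ⟨C, hC⟩ := A_bound f
  refine ⟨C, fun n => ?_⟩
  rcases Nat.eq_zero_or_pos n with rfl | hn
  · rw [lam_zero]
    simp
  · have hn0 : (0 : ℝ) < n := by exact_mod_cast hn
    unfold lam
    rw [norm_mul, cpow_half hn]
    calc ‖(qExpansion 1 f).coeff n‖ * (n : ℝ) ^ (-(((k : ℝ) - 1) / 2))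
        ≤ (C * (n : ℝ) ^ ((k : ℝ) / 2)) * (n : ℝ) ^ (-(((k : ℝ) - 1) / 2)) := by
          gcongr
          exact hC n hn
      _ = C * Real.sqrt n := by
          rw [mul_assoc, ← Real.rpow_add hn0, Real.sqrt_eq_rpow]
          ring_nf

lemma lam_rec [NeZero N] (hf : IsNewform N k f) (p : Nat.Primes) (m : ℕ) (hm : 0 < m) :
    lam N k f (p * m) = lam N k f p * lam N k f m - (if (p : ℕ) ∣ N then 0 else 1) *
      (if (p : ℕ) ∣ m then lam N k f (m / p) else 0) := by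
  have hp : 0 < (p : ℕ) := p.2.pos
  have hpC : ((p : ℕ) : ℂ) ≠ 0 := by exact_mod_cast hp.ne'
  obtain ⟨a, ha⟩ := hf.hecke p
  have h1 := hecke_rec f hp ha 1
  have h2 := hecke_rec f hp ha m
  have h3 : A f 1 = 1 := hf.coeff_one
  have hp1 : ¬ (p : ℕ) ∣ 1 := fun h => p.2.one_lt.ne' (Nat.dvd_one.1 h)
  unfold B at h1 h2
  rw [if_neg hp1, mul_zero, zero_add, mul_one, h3, mul_one] at h1
  rw [← h1] at h2
  have e1 : lam N k f p = A f p * ((p : ℕ) : ℂ) ^ (-(((k : ℂ) - 1) / 2)) := rfl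
  have e2 : lam N k f m = A f m * (m : ℂ) ^ (-(((k : ℂ) - 1) / 2)) := rfl
  have e3 : lam N k f (p * m) = A f (p * m) * (((p : ℕ) : ℂ) ^ (-(((k : ℂ) - 1) / 2)) *
      (m : ℂ) ^ (-(((k : ℂ) - 1) / 2))) := by
    unfold lam
    rw [Nat.cast_mul, Complex.natCast_mul_natCast_cpow]
    rfl
  rw [e1, e2, e3]
  by_cases hN : (p : ℕ) ∣ N
  · rw [if_pos hN, zero_mul, zero_add] at h2
    rw [if_pos hN, zero_mul, sub_zero, h2]
    ring
  · rw [if_neg hN] at h2 ⊢
    rw [one_mul]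
    by_cases hd : (p : ℕ) ∣ m
    · obtain ⟨j, rfl⟩ := hd
      rw [if_pos (dvd_mul_right _ _), Nat.mul_div_cancel_left _ hp] at h2 ⊢
      have e4 : lam N k f j = A f j * (j : ℂ) ^ (-(((k : ℂ) - 1) / 2)) := rfl
      rw [e4, Nat.cast_mul, Complex.natCast_mul_natCast_cpow]
      have e5 : ((p : ℕ) : ℂ) ^ (k - 1) * (((p : ℕ) : ℂ) ^ (-(((k : ℂ) - 1) / 2)) *
          ((p : ℕ) : ℂ) ^ (-(((k : ℂ) - 1) / 2))) = 1 := by
        rw [← Complex.cpow_intCast, ← Complex.cpow_add _ _ hpC, ← Complex.cpow_add _ _ hpC]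
        push_cast
        rw [show ((k : ℂ) - 1 + (-(((k : ℂ) - 1) / 2) + -(((k : ℂ) - 1) / 2))) = 0 by ring,
          Complex.cpow_zero]
      have h4 : A f ((p : ℕ) * ((p : ℕ) * j)) = A f p * A f ((p : ℕ) * j) -
          ((p : ℕ) : ℂ) ^ (k - 1) * A f j := by linear_combination h2
      rw [h4]
      linear_combination (-(A f j * (j : ℂ) ^ (-(((k : ℂ) - 1) / 2)))) * e5
    · rw [if_neg hd, mul_zero, zero_add] at h2
      rw [if_neg hd, sub_zero, h2]
      ring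

/-- **The `L`-function of the twist by a primitive real character of conductor prime to the level** -/
theorem exists_L (hf : IsNewform N k f) (hN : 0 < N) (hk : 0 < k) {W : ℂ}
    (hW : ∀ z : ℍ, f (ofComplex (-1 / ((N : ℂ) * z))) = W * (z : ℂ) ^ k * f z)
    {m : ℕ} (hm : 0 < m) (hNm : Nat.Coprime N m) (ψ : DirichletCharacter ℂ m) (hψ : ψ.IsPrimitive)
    (hsq : ψ ^ 2 = 1) :
    ∃ L : ℂ → ℂ, Differentiable ℂ L ∧
      (∀ s : ℂ, 3 / 2 < s.re → HasProd (fun p : Nat.Primes => (EF N k f p (ψ p) s)⁻¹) (L s)) ∧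
      ∃ n : ℕ, analyticOrderAt L (1 / 2) = n ∧
        ψ (-((N : ZMod m))) * W * Complex.I ^ k * ((((N : ℝ) ^ (-(k : ℝ) / 2) : ℝ)) : ℂ) =
          (-1) ^ n := by
  have : NeZero N := ⟨hN.ne'⟩
  have : NeZero m := ⟨hm.ne'⟩
  have hN0 : (0 : ℝ) < N := by exact_mod_cast hN
  have hm0 : (0 : ℝ) < m := by exact_mod_cast hm
  have hk0 : (0 : ℝ) < k := by exact_mod_cast hk
  have hτ := tau_ne_zero ψ hψ
  set q : ℝ := m * Real.sqrt N with hq
  have hq0 : 0 < q := by positivity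
  set c : ℕ → ℂ := fun n => A f n * ψ n with hc
  have hc0 : c 0 = 0 := by rw [hc]; simp only [A_zero f, zero_mul]
  obtain ⟨C, hC⟩ := A_bound f
  have hcb : ∀ n : ℕ, 1 ≤ n → ‖c n‖ ≤ C * (n : ℝ) ^ ((k : ℝ) / 2) := by
    intro n hn
    rw [hc]
    simp only
    rw [norm_mul]
    calc ‖A f n‖ * ‖ψ n‖ ≤ ‖A f n‖ * 1 := by
          gcongr
          exact DirichletCharacter.norm_le_one ψ _
      _ ≤ _ := by rw [mul_one]; exact hC n hn
  set Φ : ℝ → ℂ := fun t => (tau ψ)⁻¹ * TS f ψ (Complex.I * ((t / q : ℝ) : ℂ)) with hΦ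
  have hsum : ∀ t : ℝ, 0 < t → HasSum
      (fun n : ℕ => c n * (Real.exp (-(2 * Real.pi * n / q) * t) : ℂ)) (Φ t) := by
    intro t ht
    have h1 := (hasSum_TS f ψ hψ hsq (y := t / q) (by positivity)).mul_left (tau ψ)⁻¹
    refine h1.congr_fun fun n => ?_
    rw [hc]
    simp only
    rw [inv_mul_cancel_left₀ hτ]
    congr 3
    field_simp
  have hcont : ContinuousOn Φ (Set.Ioi 0) :=
    continuousOn_const.mul (continuousOn_TS f ψ q hq0)
  set ε : ℂ := ψ (-((N : ZMod m))) * W * Complex.I ^ k * ((((N : ℝ) ^ (-(k : ℝ) / 2) : ℝ)) : ℂ)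
    with hε
  have hne : ∃ z, f z ≠ 0 := by
    by_contra h
    push Not at h
    have h0 : (⇑f : ℍ → ℂ) = 0 := funext h
    have h1 := hf.coeff_one
    rw [h0] at h1
    have h2 : (qExpansion 1 (0 : ℍ → ℂ)).coeff 1 = 0 := by
      rw [qExpansion_zero]
      simp
    rw [h2] at h1
    exact zero_ne_one h1
  have hW0 := fricke_ne_zero hne hN hW
  have hψN : ψ (-((N : ZMod m))) ≠ 0 := by
    have h1 : IsUnit (-((N : ZMod m))) := ((ZMod.isUnit_iff_coprime _ _).2 hNm).neg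
    exact (h1.map ψ).ne_zero
  have hε0 : ε ≠ 0 := by
    rw [hε]
    refine mul_ne_zero (mul_ne_zero (mul_ne_zero hψN hW0) (zpow_ne_zero _ Complex.I_ne_zero)) ?_
    exact_mod_cast (Real.rpow_pos_of_pos hN0 _).ne'
  have hfe : ∀ t : ℝ, 0 < t → Φ (1 / t) = ε * ((t ^ (k : ℝ) : ℝ) : ℂ) * Φ t := by
    intro t ht
    have htC : (t : ℂ) ≠ 0 := by exact_mod_cast ht.ne'
    have hqC : (q : ℂ) ≠ 0 := by exact_mod_cast hq0.ne'
    have him : 0 < (Complex.I * ((t / q : ℝ) : ℂ)).im := by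
      simp only [Complex.I_mul_im, Complex.ofReal_re]
      positivity
    have h1 := TS_one f hW hN hNm ψ hsq him
    have hmC : (m : ℂ) ≠ 0 := by exact_mod_cast hm.ne'
    have hNC : (N : ℂ) ≠ 0 := by exact_mod_cast hN.ne'
    have hq2 : (q : ℂ) ^ 2 = (N : ℂ) * (m : ℂ) ^ 2 := by
      have : q ^ 2 = (N : ℝ) * (m : ℝ) ^ 2 := by
        rw [hq, mul_pow, Real.sq_sqrt hN0.le]
        ring
      exact_mod_cast this
    have h2 : -1 / ((N : ℂ) * (m : ℂ) ^ 2 * (Complex.I * ((t / q : ℝ) : ℂ))) =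
        Complex.I * (((1 / t) / q : ℝ) : ℂ) := by
      rw [← hq2]
      push_cast
      have hI : Complex.I ≠ 0 := Complex.I_ne_zero
      field_simp
      rw [Complex.I_sq]
    rw [h2] at h1
    rw [hΦ]
    simp only
    rw [h1]
    have h3 : ((m : ℂ) * (Complex.I * ((t / q : ℝ) : ℂ))) ^ k =
        Complex.I ^ k * ((((N : ℝ) ^ (-(k : ℝ) / 2) : ℝ)) : ℂ) * ((t ^ (k : ℝ) : ℝ) : ℂ) := by
      have h4 : (m : ℂ) * (Complex.I * ((t / q : ℝ) : ℂ)) =
          Complex.I * ((((N : ℝ) ^ (-(1 : ℝ) / 2) * t : ℝ)) : ℂ) := by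
        have h5 : (m : ℝ) * (t / q) = (N : ℝ) ^ (-(1 : ℝ) / 2) * t := by
          rw [hq, neg_div, Real.rpow_neg hN0.le, ← Real.sqrt_eq_rpow]
          field_simp
        rw [← h5]
        push_cast
        ring
      rw [h4, mul_zpow]
      rw [← Complex.ofReal_zpow, mul_zpow, ← Real.rpow_intCast, ← Real.rpow_mul hN0.le,
        ← Real.rpow_intCast]
      rw [show -(1 : ℝ) / 2 * (k : ℝ) = -(k : ℝ) / 2 by ring]
      push_cast
      ring
    rw [h3, hε]
    ring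
  obtain ⟨H, hH, hHfe, hHs⟩ := core hc0 hcb hq0 hsum hcont k hk0 ε hε0 hfe
  set G : ℂ → ℂ := fun s => H (s + ((k : ℂ) - 1) / 2) with hG
  have hGd : Differentiable ℂ G := by
    rw [hG]
    exact hH.comp (by fun_prop)
  have hGfe : ∀ s, G (1 - s) = ε * G s := by
    intro s
    rw [hG]
    simp only
    rw [← hHfe]
    congr 1
    push_cast
    ring
  have hb0 : ((q / (2 * Real.pi) : ℝ) : ℂ) ≠ 0 := by
    have : (q / (2 * Real.pi) : ℝ) ≠ 0 := by positivity
    exact_mod_cast this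
  set M : ℂ → ℂ := fun s => ((q / (2 * Real.pi) : ℝ) : ℂ) ^ (-(s + ((k : ℂ) - 1) / 2)) *
    (Complex.Gamma (s + ((k : ℂ) - 1) / 2))⁻¹ with hM
  have hMd : Differentiable ℂ M := by
    rw [hM]
    refine Differentiable.mul ?_ ?_
    · intro s
      exact DifferentiableAt.const_cpow (by fun_prop) (Or.inl hb0)
    · exact Complex.differentiable_one_div_Gamma.comp (by fun_prop)
  have hMhalf : M (1 / 2) ≠ 0 := by
    rw [hM]
    simp only
    refine mul_ne_zero ?_ (inv_ne_zero ?_)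
    · rw [Complex.cpow_def_of_ne_zero hb0]
      exact Complex.exp_ne_zero _
    · apply Complex.Gamma_ne_zero_of_re_pos
      have : (1 / 2 + ((k : ℂ) - 1) / 2) = (((k : ℝ) / 2 : ℝ) : ℂ) := by
        push_cast
        ring
      rw [this, Complex.ofReal_re]
      positivity
  obtain ⟨C', hC'⟩ := lam_bound (N := N) (k := k) (f := f)
  have hLs : ∀ s : ℂ, 3 / 2 < s.re →
      M s * G s = ∑' n : ℕ, lam N k f n * ψ n * (n : ℂ) ^ (-s) := by
    intro s hs
    have hre : (s + ((k : ℂ) - 1) / 2).re = s.re + ((k : ℝ) - 1) / 2 := by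
      have : ((k : ℂ) - 1) / 2 = ((((k : ℝ) - 1) / 2 : ℝ) : ℂ) := by push_cast; rfl
      rw [this, Complex.add_re, Complex.ofReal_re]
    have hk1 : (1 : ℝ) ≤ k := by exact_mod_cast hk
    have h1 := hHs (s + ((k : ℂ) - 1) / 2) (by rw [hre]; linarith) (by rw [hre]; linarith)
    rw [hM, hG]
    simp only
    rw [h1]
    have hΓ : Complex.Gamma (s + ((k : ℂ) - 1) / 2) ≠ 0 := by
      apply Complex.Gamma_ne_zero_of_re_pos
      rw [hre]
      linarith
    have hx : ((q / (2 * Real.pi) : ℝ) : ℂ) ^ (s + ((k : ℂ) - 1) / 2) ≠ 0 := by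
      rw [Complex.cpow_def_of_ne_zero hb0]
      exact Complex.exp_ne_zero _
    rw [Complex.cpow_neg]
    have h2 : ∀ n : ℕ, c n * (n : ℂ) ^ (-(s + ((k : ℂ) - 1) / 2)) =
        lam N k f n * ψ n * (n : ℂ) ^ (-s) := by
      intro n
      rcases Nat.eq_zero_or_pos n with rfl | hn
      · rw [hc0, lam_zero]
        ring
      · have hnC : (n : ℂ) ≠ 0 := by exact_mod_cast hn.ne'
        rw [neg_add, Complex.cpow_add _ _ hnC, hc]
        unfold lam A
        ring
    rw [← tsum_congr h2]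
    generalize ((q / (2 * Real.pi) : ℝ) : ℂ) ^ (s + ((k : ℂ) - 1) / 2) = X at hx ⊢
    generalize Complex.Gamma (s + ((k : ℂ) - 1) / 2) = Y at hΓ ⊢
    field_simp
  have hl1 : lam N k f 1 = 1 := by
    unfold lam
    rw [hf.coeff_one]
    simp
  have heul : ∀ s : ℂ, 3 / 2 < s.re → Summable (fun n : ℕ => ‖lam N k f n * ψ n * (n : ℂ) ^ (-s)‖) ∧
      HasProd (fun p : Nat.Primes => (EF N k f p (ψ p) s)⁻¹) (M s * G s) := by
    intro s hs
    rw [hLs s hs]
    have h1 := euler_product (fun p => lam N k f p) (fun p => if (p : ℕ) ∣ N then 0 else 1)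
      (lam N k f) lam_zero hl1 (fun p m hm => by
        have h := lam_rec hf p m hm
        rw [h]) C' hC' ψ s hs
    exact h1
  have hGne : ∃ s, G s ≠ 0 := by
    by_contra h
    push Not at h
    have h1 := heul 2 (by norm_num)
    have h2 : ∀ x : ℝ, 3 / 2 < x → LSeries (fun n => lam N k f n * ψ n) (x : ℂ) = 0 := by
      intro x hx
      have h3 := hLs (x : ℂ) (by simpa using hx)
      rw [h, mul_zero] at h3
      rw [LSeries, h3]
      refine tsum_congr fun n => ?_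
      rcases Nat.eq_zero_or_pos n with rfl | hn
      · rw [LSeries.term_zero, lam_zero]
        ring
      · rw [LSeries.term_of_ne_zero hn.ne', Complex.cpow_neg]
        rfl
    have hab : LSeries.abscissaOfAbsConv (fun n => lam N k f n * ψ n) < ⊤ := by
      refine lt_of_le_of_lt (LSeriesSummable.abscissaOfAbsConv_le (s := 2) ?_) ?_
      · refine (Summable.of_norm h1.1).congr fun n => ?_
        rcases Nat.eq_zero_or_pos n with rfl | hn
        · rw [LSeries.term_zero, lam_zero]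
          ring
        · rw [LSeries.term_of_ne_zero hn.ne', Complex.cpow_neg]
          rfl
      · exact EReal.coe_lt_top _
    have h3 := LSeries.tendsto_atTop hab
    have h4 : Tendsto (fun x : ℝ => LSeries (fun n => lam N k f n * ψ n) (x : ℂ)) atTop (𝓝 0) := by
      refine tendsto_const_nhds.congr' ?_
      filter_upwards [eventually_gt_atTop (3 / 2 : ℝ)] with x hx
      exact (h2 x hx).symm
    have h5 := tendsto_nhds_unique h3 h4
    rw [hl1] at h5
    simp at h5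
  obtain ⟨n, hn, hεn⟩ := order_parity hGd hGfe hGne
  refine ⟨fun s => M s * G s, hMd.mul hGd, fun s hs => (heul s hs).2, n, ?_, hεn⟩
  have h1 : analyticOrderAt (M * G) (1 / 2) = analyticOrderAt M (1 / 2) +
      analyticOrderAt G (1 / 2) := analyticOrderAt_mul (hMd.analyticAt _) (hGd.analyticAt _)
  have h2 : analyticOrderAt M (1 / 2) = 0 := (hMd.analyticAt _).analyticOrderAt_eq_zero.2 hMhalf
  rw [h2, zero_add, hn] at h1
  exact h1

lemma jac_neg {d : ℕ} (hd : d % 8 = 7) {ψ : DirichletCharacter ℂ d}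
    (h : ∀ n : ℕ, ψ (n : ZMod d) = (jacobiSym n d : ℂ)) (r : ℕ) :
    ψ (-(((2 ^ r : ℕ) : ZMod d))) = -1 := by
  have h1 : ψ (-1) = -1 := by
    have h2 : (-1 : ZMod d) = ((d - 1 : ℕ) : ZMod d) := by
      rw [Nat.cast_sub (by omega)]
      simp
    rw [h2, h]
    have h3 : ((d - 1 : ℕ) : ℤ) = -1 + d * 1 := by
      rw [Nat.cast_sub (by omega)]
      push_cast
      ring
    rw [h3, jacobiSym.mod_left, Int.add_mul_emod_self_left, ← jacobiSym.mod_left,
      jacobiSym.at_neg_one (by rw [Nat.odd_iff]; omega), ZMod.χ₄_nat_three_mod_four (by omega)]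
    norm_num
  have h2 : ψ (2 : ZMod d) = 1 := by
    have h3 := h 2
    have h4 : jacobiSym ((2 : ℕ) : ℤ) d = 1 := by
      rw [Nat.cast_ofNat, jacobiSym.at_two (by rw [Nat.odd_iff]; omega), ZMod.χ₈_nat_eq_if_mod_eight]
      rw [if_neg (by omega), if_pos (by omega)]
    rw [h4] at h3
    simpa using h3
  rw [neg_eq_neg_one_mul, map_mul, h1]
  push_cast
  rw [map_pow, h2]
  norm_num

lemma jac_sq {d : ℕ} (hd : d ≠ 0) {ψ : DirichletCharacter ℂ d}
    (h : ∀ n : ℕ, ψ (n : ZMod d) = (jacobiSym n d : ℂ)) : ψ ^ 2 = 1 := by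
  have : NeZero d := ⟨hd⟩
  ext a
  have h1 := h (a : ZMod d).val
  rw [ZMod.natCast_zmod_val] at h1
  rw [MulChar.pow_apply_coe, MulChar.one_apply a.isUnit, h1]
  have h2 : IsUnit (ψ (a : ZMod d)) := a.isUnit.map ψ
  have h3 : jacobiSym ((a : ZMod d).val : ℤ) d ≠ 0 := by
    intro h4
    rw [h4] at h1
    rw [h1] at h2
    simp at h2
  rcases jacobiSym.trichotomy ((a : ZMod d).val : ℤ) d with h4 | h4 | h4
  · exact absurd h4 h3
  · rw [h4]; norm_num
  · rw [h4]; norm_num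

end Pool.Agent.H55.PR
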