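import Mathlib

/-!
# Representations of the absolute Galois group of `ℚ`, twisted restrictions to real quadratic fields,
# and their Selmer groups: definitions

`QBar` is an algebraic closure of `ℚ`, `GQ` its Galois group over `ℚ`. `A` is the ring of integers of
a finite extension `E` of `ℚ_2` and `ρ : GQ → GL_n(A)` a representation, `V = E ^ n`. For `s` in `QBar`
with `s ^ 2` rational, `sgn s` is the character of `GQ` with values `1`, `-1` of the field `ℚ(s)`; the
representation `V ⊗ sgn s` is considered over the field `ℚ(t)`, that is, on the subgroup `GF t`.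
-/

set_option autoImplicit false

namespace Pool.Agent.H55.PR

open Matrix IsLocalRing

/-- An algebraic closure of `ℚ`. -/
abbrev QBar : Type := AlgebraicClosure ℚ

/-- The absolute Galois group of `ℚ` (with its Krull topology). -/
abbrev GQ : Type := QBar ≃ₐ[ℚ] QBar

/-- The absolute Galois group of the field `ℚ(t)`. -/
noncomputable def GF (t : QBar) : Subgroup GQ := (IntermediateField.adjoin ℚ {t}).fixingSubgroup

/-- Embeddings of `ℚ̄` into the algebraic closure of `ℚ_p`. Each of them gives a place above `p` of all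
subfields of `ℚ̄`. -/
abbrev Emb (p : ℕ) [Fact p.Prime] : Type := QBar →ₐ[ℚ] PadicAlgCl p

/-- The decomposition group, in the absolute Galois group of `ℚ`, of the place given by `ι`. -/
def Dec {p : ℕ} [Fact p.Prime] (ι : Emb p) : Subgroup GQ where
  carrier := {σ | ∃ τ : PadicAlgCl p ≃ₐ[ℚ_[p]] PadicAlgCl p, ∀ x, τ (ι x) = ι (σ x)}
  mul_mem' := by
    rintro σ σ' ⟨τ, h⟩ ⟨τ', h'⟩
    refine ⟨τ * τ', fun x => ?_⟩
    rw [AlgEquiv.mul_apply, h', h]
    rfl
  one_mem' := ⟨1, fun _ => rfl⟩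
  inv_mem' := by
    rintro σ ⟨τ, h⟩
    refine ⟨τ⁻¹, fun x => τ.injective ?_⟩
    rw [h]
    have h1 : σ (σ⁻¹ x) = x := AlgEquiv.apply_symm_apply σ x
    rw [h1]
    exact AlgEquiv.apply_symm_apply τ (ι x)

/-- Its inertia group: the automorphisms which are trivial on the residue field. -/
def Inr {p : ℕ} [Fact p.Prime] (ι : Emb p) : Set GQ :=
  {σ | ∃ τ : PadicAlgCl p ≃ₐ[ℚ_[p]] PadicAlgCl p, (∀ x, τ (ι x) = ι (σ x)) ∧
    ∀ z : PadicAlgCl p, ‖z‖ ≤ 1 → ‖τ z - z‖ < 1}

/-- The `2`-adic cyclotomic character. -/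
noncomputable def cyc (σ : GQ) : ℤ_[2] := (cyclotomicCharacter QBar 2 σ.toRingEquiv : ℤ_[2]ˣ)

open Classical in
/-- The quadratic character of the field `ℚ(s)`, `s ^ 2` rational: the value at `σ` is `1` if
`σ s = s` and `-1` otherwise. -/
noncomputable def sgn (s : QBar) (σ : GQ) : ℤ := if σ s = s then 1 else -1

section representations

variable {A : Type} [CommRing A] {n : ℕ}

/-- The representation `ρ` is continuous, residually unipotent and unramified outside `2`. -/
structure Admissible [IsLocalRing A] [TopologicalSpace A] (ρ : GQ →* GL (Fin n) A) : Prop where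
  cont : ∀ i j, Continuous fun σ => (ρ σ : Matrix (Fin n) (Fin n) A) i j
  unipotent : ∀ σ, ∃ m : ℕ, ∀ i j,
    (((ρ σ : Matrix (Fin n) (Fin n) A) - 1) ^ m) i j ∈ maximalIdeal A
  unramified : ∀ (p : ℕ) [Fact p.Prime] (ι : Emb p), p ≠ 2 → ∀ σ ∈ Inr ι, ρ σ = 1

variable (E : Type) [Field E] [Algebra A E]

/-- The matrix of `σ` on `V = E ^ n`. -/
noncomputable def mat (ρ : GQ →* GL (Fin n) A) (σ : GQ) : Matrix (Fin n) (Fin n) E :=
  (ρ σ : Matrix (Fin n) (Fin n) A).map (algebraMap A E)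

/-- The matrix of `σ` on `V ⊗ sgn s`. -/
noncomputable def tw (ρ : GQ →* GL (Fin n) A) (s : QBar) (σ : GQ) : Matrix (Fin n) (Fin n) E :=
  (sgn s σ : E) • mat E ρ σ

/-- The cyclotomic character with values in `E`. -/
noncomputable def cycE [Algebra ℤ_[2] A] (σ : GQ) : E :=
  algebraMap A E (algebraMap ℤ_[2] A (cyc σ))

/-- `Ω` is an alternating form on `V` with `Ω(σ x, σ y) = χ(σ) Ω(x, y)`, `χ` the cyclotomic
character. -/
structure Symplectic [Algebra ℤ_[2] A] (ρ : GQ →* GL (Fin n) A) (Ω : Matrix (Fin n) (Fin n) E) :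
    Prop where
  alt : Ωᵀ = -Ω
  inv : ∀ (σ : GQ) (x y : Fin n → E),
    (mat E ρ σ *ᵥ x) ⬝ᵥ (Ω *ᵥ (mat E ρ σ *ᵥ y)) = cycE (A := A) E σ * (x ⬝ᵥ (Ω *ᵥ y))

/-- A function on a topological space with values in a finite product of copies of `E` is continuous
if a nonzero multiple of it is continuous with values in the lattice given by `A`. -/
def Cont {G : Type} [TopologicalSpace G] [TopologicalSpace A] {k : ℕ} (f : G → Fin k → E) : Prop :=
  ∃ (a : A) (b : G → Fin k → A), algebraMap A E a ≠ 0 ∧ Continuous b ∧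
    ∀ g i, algebraMap A E a * f g i = algebraMap A E (b g i)

/-- `l` is a continuous cocycle of the decomposition group with values in `V`. -/
structure LocalCocycle [TopologicalSpace A] (ρ : GQ →* GL (Fin n) A) (ι : Emb 2)
    (l : Dec ι → Fin n → E) : Prop where
  mul : ∀ δ δ' : Dec ι, l (δ * δ') = l δ + mat E ρ δ *ᵥ l δ'
  cont : Cont (A := A) E l

/-- The classes of the functions `z 0`, …, `z (k - 1)` on `H` are linearly independent modulo the
coboundaries `σ ↦ M σ v - v`. -/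
def Independent {H : Type} (M : H → Matrix (Fin n) (Fin n) E) {k : ℕ}
    (z : Fin k → H → Fin n → E) : Prop :=
  ∀ a : Fin k → E, (∃ v : Fin n → E, ∀ σ : H, ∑ i, a i • z i σ = M σ *ᵥ v - v) → a = 0

/-- The class of `y` is a linear combination of the classes of `z 0`, …, `z (k - 1)`, modulo the
coboundaries `σ ↦ M σ v - v`. -/
def InSpan {H : Type} (M : H → Matrix (Fin n) (Fin n) E) {k : ℕ}
    (z : Fin k → H → Fin n → E) (y : H → Fin n → E) : Prop :=
  ∃ (a : Fin k → E) (v : Fin n → E), ∀ σ : H, y σ = ∑ i, a i • z i σ + (M σ *ᵥ v - v)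

/-- The cup product in `H²(ℚ_2, E(1))` of the classes of the local cocycles `l` and `y` is zero: the
two-cocycle `(δ, δ') ↦ Ω(l(δ), δ y(δ'))` is the coboundary of a continuous function `f` on the
decomposition group. -/
def CupZero [TopologicalSpace A] [Algebra ℤ_[2] A] (ρ : GQ →* GL (Fin n) A)
    (Ω : Matrix (Fin n) (Fin n) E) (ι : Emb 2) (l y : Dec ι → Fin n → E) : Prop :=
  ∃ f : Dec ι → E, Cont (A := A) E (fun δ (_ : Fin 1) => f δ) ∧
    ∀ δ δ' : Dec ι, l δ ⬝ᵥ (Ω *ᵥ (mat E ρ δ *ᵥ y δ')) =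
      f δ + cycE (A := A) E (δ : GQ) * f δ' - f (δ * δ')

/-- `l 0`, …, `l (k - 1)` is a basis of a subspace `L` of `H¹(ℚ_2, V)` with `L = L^⊥` for the cup
product `H¹(ℚ_2, V) × H¹(ℚ_2, V) → H²(ℚ_2, E(1))`. -/
structure Lagrangian [TopologicalSpace A] [Algebra ℤ_[2] A] (ρ : GQ →* GL (Fin n) A)
    (Ω : Matrix (Fin n) (Fin n) E) (ι : Emb 2) {k : ℕ} (l : Fin k → Dec ι → Fin n → E) : Prop where
  cocycle : ∀ i, LocalCocycle E ρ ι (l i)
  indep : Independent E (fun δ : Dec ι => mat E ρ δ) l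
  perp : ∀ y : Dec ι → Fin n → E, LocalCocycle E ρ ι y →
    (InSpan E (fun δ : Dec ι => mat E ρ δ) l y ↔ ∀ i, CupZero E ρ Ω ι (l i) y)

/-- **The Selmer group** of `V ⊗ sgn s` over the field `ℚ(t)` for the local condition `L` at the
places above `2`, `L` being the span of the classes of the `l i`: `z` is a continuous cocycle of the
Galois group of `ℚ(t)`, its class is unramified outside `2`, and for all `g` in the Galois group of `ℚ`
its conjugate `δ ↦ g z(g⁻¹ δ g)`, which is a cocycle of the decomposition group of `ι`, has its class in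
`L`. (The places of `ℚ(t)` above `2` are given by the embeddings `ι ∘ g`.) -/
structure InSelmer [TopologicalSpace A] (ρ : GQ →* GL (Fin n) A) (s t : QBar) (ι : Emb 2) {k : ℕ}
    (l : Fin k → Dec ι → Fin n → E) (z : GF t → Fin n → E) : Prop where
  mul : ∀ σ τ : GF t, z (σ * τ) = z σ + tw E ρ s σ *ᵥ z τ
  cont : Cont (A := A) E z
  unramified : ∀ (p : ℕ) [Fact p.Prime] (ι' : Emb p), p ≠ 2 →
    ∃ v : Fin n → E, ∀ σ : GF t, (σ : GQ) ∈ Inr ι' → z σ = tw E ρ s σ *ᵥ v - v
  two : ∀ g : GQ, ∃ y : Dec ι → Fin n → E, InSpan E (fun δ : Dec ι => mat E ρ δ) l y ∧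
    ∀ (δ : Dec ι) (h : GF t), (h : GQ) = g⁻¹ * δ * g → y δ = tw E ρ s g *ᵥ z h

end representations

/-- The class of the numbers `d`: the primes `7 mod 16`, and the products of a prime `5 mod 8` and of
a prime `3 mod 8`. -/
def InClass (d : ℕ) : Prop :=
  (d.Prime ∧ d % 16 = 7) ∨ ∃ p q : ℕ, p.Prime ∧ q.Prime ∧ p % 8 = 5 ∧ q % 8 = 3 ∧ d = p * q

end Pool.Agent.H55.PR
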