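import Pool.Agent.H55.PR.An
import Pool.Agent.H55.PR.Defs
import Pool.Agent.R384.Z.Ar

/-!
The order at the centre of the product of two twists of a newform of level `2 ^ r`.
-/

set_option autoImplicit false

open UpperHalfPlane MatrixGroups CongruenceSubgroup Filter Topology

namespace Pool.Agent.H55.PR

open Pool.Agent.W97.TW

/-- twist of a newform of level `2 ^ r` by the character of `ℚ(√-d)` -/
theorem twist_L {d : ℕ} (hd : InClass d) {r : ℕ} {k : ℤ} (hk : 0 < k)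
    {f : CuspForm (Gamma0 (2 ^ r) : Subgroup (GL (Fin 2) ℝ)) k} (hf : IsNewform (2 ^ r) k f)
    {W : ℂ} (hW : ∀ z : ℍ, f (ofComplex (-1 / (((2 ^ r : ℕ) : ℂ) * z))) = W * (z : ℂ) ^ k * f z) :
    ∃ L : ℂ → ℂ, Differentiable ℂ L ∧
      (∀ s : ℂ, 3 / 2 < s.re → HasProd (fun p : Nat.Primes =>
        (EF (2 ^ r) k f p (jacobiSym (p : ℕ) d : ℂ) s)⁻¹) (L s)) ∧
      ∃ n : ℕ, analyticOrderAt L (1 / 2) = n ∧
        -(W * Complex.I ^ k * (((((2 ^ r : ℕ) : ℝ) ^ (-(k : ℝ) / 2) : ℝ)) : ℂ)) = (-1) ^ n := by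
  have hF : Pool.Agent.Z384.Fld d := hd
  obtain ⟨ψ, hψ, hψ'⟩ := H385.jac_char d (by rw [Nat.odd_iff]; have := hF.mod; omega) hF.sqf
  have hcop : Nat.Coprime (2 ^ r) d := by
    apply Nat.Coprime.pow_left
    rw [Nat.coprime_two_left, Nat.odd_iff]
    have := hF.mod
    omega
  obtain ⟨L, h1, h2, n, h3, h4⟩ := exists_L hf (by positivity) hk hW (Nat.pos_of_ne_zero hF.ne_zero)
    hcop ψ hψ (jac_sq hF.ne_zero hψ')
  refine ⟨L, h1, fun s hs => ?_, n, h3, ?_⟩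
  · have h5 := h2 s hs
    refine h5.congr_fun fun p => ?_
    rw [hψ']
  · rw [← h4, jac_neg hF.mod hψ']
    ring

/-- **Even order at the centre.** -/
theorem evenL {d d' : ℕ} (hd : InClass d) (hd' : InClass d') {r : ℕ} {k : ℤ} (hk : 0 < k)
    {f : CuspForm (Gamma0 (2 ^ r) : Subgroup (GL (Fin 2) ℝ)) k} (hf : IsNewform (2 ^ r) k f) :
    ∃ L : ℂ → ℂ, Differentiable ℂ L ∧
      (∀ s : ℂ, 3 / 2 < s.re → HasProd (fun p : Nat.Primes =>
        (EF (2 ^ r) k f p (jacobiSym (p : ℕ) d : ℂ) s *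
          EF (2 ^ r) k f p (jacobiSym (p : ℕ) d' : ℂ) s)⁻¹) (L s)) ∧
      ∃ m : ℕ, Even m ∧ analyticOrderAt L (1 / 2) = m := by
  obtain ⟨W, hW⟩ := hf.fricke
  obtain ⟨L, h1, h2, n, h3, h4⟩ := twist_L hd hk hf hW
  obtain ⟨L', h1', h2', n', h3', h4'⟩ := twist_L hd' hk hf hW
  refine ⟨L * L', h1.mul h1', fun s hs => ?_, n + n', ?_, ?_⟩
  · have h5 := (h2 s hs).mul (h2' s hs)
    refine h5.congr_fun fun p => ?_
    rw [mul_inv]
  · have h5 : (-1 : ℂ) ^ (n + n') = 1 := by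
      rw [pow_add, ← h4', h4, ← pow_add, Even.neg_one_pow ⟨n, rfl⟩]
    by_contra h
    rw [Nat.not_even_iff_odd] at h
    rw [h.neg_one_pow] at h5
    norm_num at h5
  · rw [analyticOrderAt_mul (h1.analyticAt _) (h1'.analyticAt _), h3, h3']
    push_cast
    rfl

end Pool.Agent.H55.PR
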