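import Pool.Agent.H55.PR.Abs

/-!
# Families of representatives of a basis of the classes
-/

set_option autoImplicit false

namespace Pool.Agent.H55.PR

variable {E : Type} [Field E] {W : Type} [AddCommGroup W] [Module E W] {S B : Submodule E W}

/-- a family of representatives gives the dimension -/
theorem finrank_of {r : ℕ} (z : Fin r → W) (hz : ∀ i, z i ∈ S)
    (hi : ∀ a : Fin r → E, ∑ i, a i • z i ∈ B → a = 0)
    (hs : ∀ y ∈ S, ∃ a : Fin r → E, y - ∑ i, a i • z i ∈ B) :
    Module.Finite E (Q S B) ∧ Module.finrank E (Q S B) = r := by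
  have hlin : LinearIndependent E (fun i => (Submodule.Quotient.mk ⟨z i, hz i⟩ : Q S B)) := by
    rw [Fintype.linearIndependent_iff]
    intro a ha
    have h1 : (Submodule.Quotient.mk (∑ i, a i • (⟨z i, hz i⟩ : S)) : Q S B) = 0 := by
      rw [← ha]
      exact map_sum (Submodule.mkQ (B.submoduleOf S)) _ _
    rw [Submodule.Quotient.mk_eq_zero] at h1
    have h2 : ((∑ i, a i • (⟨z i, hz i⟩ : S) : S) : W) ∈ B := h1
    rw [AddSubmonoidClass.coe_finsetSum] at h2
    have h3 := hi a h2
    intro i
    rw [h3]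
    rfl
  have hspan : ⊤ ≤ Submodule.span E (Set.range fun i =>
      (Submodule.Quotient.mk ⟨z i, hz i⟩ : Q S B)) := by
    rintro x -
    induction x using Submodule.Quotient.induction_on with | _ y => ?_
    obtain ⟨a, ha⟩ := hs y y.2
    have h1 : (Submodule.Quotient.mk y : Q S B) =
        ∑ i, a i • (Submodule.Quotient.mk ⟨z i, hz i⟩ : Q S B) := by
      have h2 : (Submodule.Quotient.mk y : Q S B) =
          Submodule.Quotient.mk (∑ i, a i • (⟨z i, hz i⟩ : S)) := by
        refine qmk_eq ?_
        rw [AddSubmonoidClass.coe_finsetSum]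
        exact ha
      rw [h2]
      exact map_sum (Submodule.mkQ (B.submoduleOf S)) _ _
    rw [h1]
    exact Submodule.sum_mem _ fun i _ => Submodule.smul_mem _ _ (Submodule.subset_span ⟨i, rfl⟩)
  have b := Module.Basis.mk hlin hspan
  refine ⟨Module.Finite.of_basis b, ?_⟩
  rw [Module.finrank_eq_card_basis b, Fintype.card_fin]

/-- a family of representatives of a basis -/
theorem exists_family [Module.Finite E (Q S B)] : ∃ z : Fin (Module.finrank E (Q S B)) → W,
    (∀ i, z i ∈ S) ∧ (∀ a : Fin (Module.finrank E (Q S B)) → E, ∑ i, a i • z i ∈ B → a = 0) ∧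
    ∀ y ∈ S, ∃ a : Fin (Module.finrank E (Q S B)) → E, y - ∑ i, a i • z i ∈ B := by
  have b := Module.finBasis E (Q S B)
  choose z hz using fun i => Submodule.Quotient.mk_surjective (B.submoduleOf S) (b i)
  have hsum : ∀ a : Fin (Module.finrank E (Q S B)) → E,
      (Submodule.Quotient.mk (∑ i, a i • z i) : Q S B) = ∑ i, a i • b i := by
    intro a
    have h1 : (Submodule.Quotient.mk (∑ i, a i • z i) : Q S B) =
        ∑ i, a i • (Submodule.Quotient.mk (z i) : Q S B) :=
      map_sum (Submodule.mkQ (B.submoduleOf S)) _ _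
    rw [h1]
    simp only [hz]
  have hcoe : ∀ a : Fin (Module.finrank E (Q S B)) → E,
      ((∑ i, a i • z i : S) : W) = ∑ i, a i • (z i : W) := by
    intro a
    rw [AddSubmonoidClass.coe_finsetSum]
    rfl
  refine ⟨fun i => z i, fun i => (z i).2, fun a ha => ?_, fun y hy => ?_⟩
  · have h1 : (Submodule.Quotient.mk (∑ i, a i • z i) : Q S B) = 0 := by
      rw [Submodule.Quotient.mk_eq_zero]
      show ((∑ i, a i • z i : S) : W) ∈ B
      rw [hcoe]
      exact ha
    rw [hsum] at h1
    have h2 := Fintype.linearIndependent_iff.1 b.linearIndependent a h1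
    funext i
    exact h2 i
  · refine ⟨fun i => b.repr (Submodule.Quotient.mk ⟨y, hy⟩) i, ?_⟩
    have h1 : (Submodule.Quotient.mk ⟨y, hy⟩ : Q S B) =
        Submodule.Quotient.mk (∑ i, b.repr (Submodule.Quotient.mk ⟨y, hy⟩) i • z i) := by
      rw [hsum, b.sum_repr]
    rw [Submodule.Quotient.eq] at h1
    have h2 : ((⟨y, hy⟩ - ∑ i, b.repr (Submodule.Quotient.mk ⟨y, hy⟩) i • z i : S) : W) ∈ B := h1
    rw [Submodule.coe_sub, hcoe] at h2
    exact h2

end Pool.Agent.H55.PR
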