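import Pool.Agent.H55.PR.Sel
import Pool.Agent.H55.PR.Fam
import Pool.Agent.Results.MP_b4b3cb_nt.ParityEveryDimension

/-!
# The parity theorem over an imaginary quadratic field, for representations of the Galois group of `ℚ`
-/

set_option autoImplicit false
set_option linter.unusedSectionVars false

namespace Pool.Agent.H55.PR

open Matrix IsLocalRing Topology

namespace P
export Pool.Agent.Results.MP_b4b3cb_nt.ParityEveryDimension (Gal K app IsConjugation IsConjBy
  Polarized GlobalCocycle Orthogonal)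
end P

open Pool.Agent.Results.MP_b4b3cb_nt

/-! ### Complex conjugation -/

/-- complex conjugations exist -/
theorem exists_complex : ∃ c : QBar ≃ₐ[ℚ] QBar, ParityEveryDimension.IsConjugation c := by
  have j : QBar →ₐ[ℚ] ℂ := IsAlgClosed.lift
  let _ : Algebra QBar ℂ := j.toRingHom.toAlgebra
  have : IsScalarTower ℚ QBar ℂ := IsScalarTower.of_algebraMap_eq fun x => (j.commutes x).symm
  let cc : ℂ ≃ₐ[ℚ] ℂ := Complex.conjAe.restrictScalars ℚ
  refine ⟨cc.restrictNormal QBar, j.toRingHom, fun x => ?_⟩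
  exact AlgEquiv.restrictNormal_commutes cc QBar x

/-- the square of a complex conjugation -/
lemma conj_sq {c : QBar ≃ₐ[ℚ] QBar} (hc : ParityEveryDimension.IsConjugation c) : c * c = 1 := by
  obtain ⟨j, hj⟩ := hc
  ext x
  apply j.injective
  rw [AlgEquiv.mul_apply, hj, hj, Complex.conj_conj]
  rfl

lemma conj_inv {c : QBar ≃ₐ[ℚ] QBar} (hc : ParityEveryDimension.IsConjugation c) : c⁻¹ = c :=
  inv_eq_of_mul_eq_one_left (conj_sq hc)

/-- `√-d` is not real -/
lemma conj_s {c : QBar ≃ₐ[ℚ] QBar} (hc : ParityEveryDimension.IsConjugation c) {s : QBar} {d : ℕ}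
    (hd : d ≠ 0) (hs : s ^ 2 = -(d : QBar)) : c s ≠ s := by
  obtain ⟨j, hj⟩ := hc
  intro h
  have h1 : (starRingEnd ℂ) (j s) = j s := by rw [← hj, h]
  obtain ⟨r, hr⟩ := Complex.conj_eq_iff_real.1 h1
  have h2 : (j s) ^ 2 = -(d : ℂ) := by rw [← map_pow, hs, map_neg, map_natCast]
  rw [hr] at h2
  have h3 : r ^ 2 = -(d : ℝ) := by exact_mod_cast h2
  have h4 : (0 : ℝ) < d := by exact_mod_cast Nat.pos_of_ne_zero hd
  nlinarith [sq_nonneg r]

/-- the value of the cyclotomic character at a complex conjugation -/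
lemma cyc_conj {c : QBar ≃ₐ[ℚ] QBar} (hc : ParityEveryDimension.IsConjugation c) : cyc c = -1 := by
  obtain ⟨j, hj⟩ := hc
  refine PadicInt.ext_of_toZModPow.1 fun m => ?_
  rw [map_neg, map_one]
  obtain ⟨ζ, hζ⟩ := (inferInstance : HasEnoughRootsOfUnity QBar (2 ^ m)).prim
  have h1 : c ζ = ζ ^ (PadicInt.toZModPow m (cyc c)).val :=
    cyclotomicCharacter.spec 2 (n := m) c.toRingEquiv ζ hζ.pow_eq_one
  have h2 : c ζ = ζ⁻¹ := by
    apply j.injective
    rw [hj, map_inv₀]
    have h3 : ‖j ζ‖ = 1 := Complex.norm_eq_one_of_pow_eq_one (n := 2 ^ m)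
      (by rw [← map_pow, hζ.pow_eq_one, map_one]) (by positivity)
    refine eq_inv_of_mul_eq_one_left ?_
    rw [mul_comm, Complex.mul_conj, Complex.normSq_eq_norm_sq, h3]
    norm_num
  have h5 : ζ ^ ((PadicInt.toZModPow m (cyc c)).val + 1) = 1 := by
    rw [pow_succ, ← h1, h2]
    exact inv_mul_cancel₀ (hζ.ne_zero (by positivity))
  have h6 := (hζ.pow_eq_one_iff_dvd _).1 h5
  have h7 : (((PadicInt.toZModPow m (cyc c)).val + 1 : ℕ) : ZMod (2 ^ m)) = 0 :=
    (ZMod.natCast_eq_zero_iff _ _).2 h6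
  rw [Nat.cast_add, ZMod.natCast_zmod_val, Nat.cast_one] at h7
  exact eq_neg_of_add_eq_zero_left h7

/-! ### The Galois group of `ℚ(s)` -/

variable (s : QBar)

/-- the isomorphism of the Galois group of `ℚ(s)` with the subgroup -/
noncomputable def e : ParityEveryDimension.Gal s ≃* GF s :=
  (IntermediateField.fixingSubgroupEquiv (ParityEveryDimension.K s)).symm

lemma e_apply (σ : ParityEveryDimension.Gal s) (x : QBar) :
    ((e s σ : GF s) : GQ) x = ParityEveryDimension.app σ x := rfl

lemma e_symm_apply (σ : GF s) (x : QBar) :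
    ParityEveryDimension.app ((e s).symm σ) x = (σ : GQ) x := rfl

/-- the restriction of scalars -/
noncomputable def rs : ParityEveryDimension.Gal s →* GQ := (GF s).subtype.comp (e s).toMonoidHom

lemma rs_apply (σ : ParityEveryDimension.Gal s) (x : QBar) :
    rs s σ x = ParityEveryDimension.app σ x := rfl

instance : IsTopologicalGroup (ParityEveryDimension.Gal s) :=
  inferInstanceAs (IsTopologicalGroup (QBar ≃ₐ[ParityEveryDimension.K s] QBar))

instance : CompactSpace (ParityEveryDimension.Gal s) :=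
  inferInstanceAs (CompactSpace (QBar ≃ₐ[ParityEveryDimension.K s] QBar))

theorem rs_cont : Continuous (rs s) := by
  refine continuous_of_continuousAt_one (rs s) ?_
  rw [ContinuousAt, map_one]
  intro U hU
  obtain ⟨F, hF, hFU⟩ := (krullTopology_mem_nhds_one_iff ℚ QBar U).1 hU
  rw [Filter.mem_map]
  have b := Module.finBasis ℚ F
  have ho : IsOpen {σ : ParityEveryDimension.Gal s |
      ∀ i, ParityEveryDimension.app σ (b i : QBar) = (b i : QBar)} := by
    have e : {σ : ParityEveryDimension.Gal s |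
        ∀ i, ParityEveryDimension.app σ (b i : QBar) = (b i : QBar)} =
        ⋂ i, {σ : ParityEveryDimension.Gal s |
          ParityEveryDimension.app σ (b i : QBar) = (b i : QBar)} := by
      ext σ
      simp
    rw [e]
    exact isOpen_iInter_of_finite fun i => (Pool.Agent.W309.TD.locConst_apply
      (K := ParityEveryDimension.K s) (Ω := QBar) (b i : QBar)).isOpen_fiber _
  refine Filter.mem_of_superset (ho.mem_nhds (fun i => rfl)) ?_
  intro σ hσ
  apply hFU
  rw [SetLike.mem_coe, IntermediateField.mem_fixingSubgroup_iff]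
  intro x hx
  obtain ⟨f, hf⟩ : ∃ f : Fin (Module.finrank ℚ F) → ℚ, ∑ i, ((f i : ℚ) : QBar) * (b i : QBar) = x := by
    have h1 := b.sum_repr ⟨x, hx⟩
    have h3 := congrArg (Subtype.val : F → QBar) h1
    refine ⟨fun i => b.repr ⟨x, hx⟩ i, h3.symm.trans ?_ |>.symm⟩
    simp [Rat.smul_def]
  rw [← hf, map_sum]
  refine Finset.sum_congr rfl fun i _ => ?_
  rw [map_mul, map_ratCast]
  congr 1
  exact hσ i

lemma e_cont : Continuous (e s) :=
  Continuous.subtype_mk (rs_cont s) fun σ => (e s σ).2

lemma e_symm_cont : Continuous (e s).symm := by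
  let h : ParityEveryDimension.Gal s ≃ₜ GF s :=
    (e_cont s).homeoOfEquivCompactToT2 (f := (e s).toEquiv)
  exact h.symm.continuous

end Pool.Agent.H55.PR
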