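import Pool.Agent.H55.PR.Bridge

/-!
# The parity theorem over an imaginary quadratic field, for representations of the Galois group of `ℚ`:
# the dimension of the Selmer group
-/

set_option autoImplicit false
set_option linter.unusedSectionVars false

namespace Pool.Agent.H55.PR

open Matrix IsLocalRing Topology
open Pool.Agent.Results.MP_b4b3cb_nt

namespace PE
/-- the space of the local functions whose class is in the span of the `l i` -/
def Lsp {A : Type} [CommRing A] (E : Type) [Field E] [Algebra A E] {n : ℕ} (ρ : GQ →* GL (Fin n) A)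
    (D : Subgroup GQ) {k : ℕ} (l : Fin k → D → Fin n → E) : Submodule E (D → Fin n → E) where
  carrier := {y | InSpan E (fun δ : D => mat E ρ δ) l y}
  add_mem' := by
    rintro y y' ⟨a, v, h⟩ ⟨a', v', h'⟩
    refine ⟨a + a', v + v', fun σ => ?_⟩
    rw [Pi.add_apply, h, h', mulVec_add]
    simp only [Pi.add_apply, add_smul, Finset.sum_add_distrib]
    abel
  zero_mem' := ⟨0, 0, fun σ => by simp⟩
  smul_mem' := by
    rintro x y ⟨a, v, h⟩
    refine ⟨x • a, x • v, fun σ => ?_⟩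
    rw [Pi.smul_apply, h, mulVec_smul]
    simp only [Pi.smul_apply, smul_eq_mul, smul_add, smul_sub, Finset.smul_sum, smul_smul]
end PE

open PE

variable {A : Type} [CommRing A] [IsDomain A] [IsLocalRing A] [TopologicalSpace A]
  [IsTopologicalRing A] [Algebra ℤ_[2] A] {E : Type} [Field E] [Algebra A E] [IsFractionRing A E]
  {n : ℕ} {ρ : GQ →* GL (Fin n) A}

lemma Lsp_cob (D : Subgroup GQ) {k : ℕ} (l : Fin k → D → Fin n → E) (v : Fin n → E) :
    (fun δ : D => mat E ρ δ *ᵥ v - v) ∈ Lsp E ρ D l := ⟨0, v, fun δ => by simp⟩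

section

variable {s : QBar} {d : ℕ} {ι : Emb 2}

/-- the isomorphism of the decomposition groups -/
noncomputable def eD (δ : ParityEveryDimension.Dec (s := s) ι) : Dec ι := ⟨rs s δ, by
  obtain ⟨τ, hτ⟩ := δ.2
  exact ⟨τ, fun x => hτ x⟩⟩

/-- the inverse -/
noncomputable def eD' (hD : Dec ι ≤ GF s) (δ : Dec ι) : ParityEveryDimension.Dec (s := s) ι :=
  ⟨(e s).symm ⟨δ, hD δ.2⟩, by
    obtain ⟨τ, hτ⟩ := δ.2
    exact ⟨τ, fun x => hτ x⟩⟩

lemma rs_symm (h : GF s) : rs s ((e s).symm h) = h := by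
  show ((e s ((e s).symm h) : GF s) : GQ) = h
  rw [MulEquiv.apply_symm_apply]

lemma symm_rs (σ : ParityEveryDimension.Gal s) : (e s).symm ⟨rs s σ, (e s σ).2⟩ = σ := by
  show (e s).symm (e s σ) = σ
  rw [MulEquiv.symm_apply_apply]

lemma eD_eD' (hD : Dec ι ≤ GF s) (δ : Dec ι) : eD (eD' hD δ) = δ :=
  Subtype.ext (rs_symm _)

lemma eD'_eD (hD : Dec ι ≤ GF s) (δ : ParityEveryDimension.Dec (s := s) ι) :
    eD' hD (eD δ) = δ := Subtype.ext (symm_rs _)

lemma eD_mul (δ δ' : ParityEveryDimension.Dec (s := s) ι) : eD (δ * δ') = eD δ * eD δ' :=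
  Subtype.ext (map_mul (rs s) _ _)

lemma eD_cont : Continuous (eD (s := s) (ι := ι)) :=
  Continuous.subtype_mk ((rs_cont s).comp continuous_subtype_val) _

lemma eD'_cont (hD : Dec ι ≤ GF s) : Continuous (eD' hD) :=
  Continuous.subtype_mk ((e_symm_cont s).comp
    (Continuous.subtype_mk continuous_subtype_val _)) _

lemma cj_rs {c : GQ} (hc : ParityEveryDimension.IsConjugation c)
    {cj : ParityEveryDimension.Gal s → ParityEveryDimension.Gal s}
    (hcj : ParityEveryDimension.IsConjBy c cj) (σ : ParityEveryDimension.Gal s) :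
    rs s (cj σ) = c⁻¹ * rs s σ * c := by
  ext x
  rw [conj_inv hc]
  exact hcj σ x

lemma cyc_rs (σ : ParityEveryDimension.Gal s) : ParityEveryDimension.cyc σ = cyc (rs s σ) := rfl

/-- the polarization -/
theorem polarized {Ω : Matrix (Fin n) (Fin n) E} (hΩ : Symplectic E ρ Ω) {c : GQ}
    (hc : ParityEveryDimension.IsConjugation c)
    {cj : ParityEveryDimension.Gal s → ParityEveryDimension.Gal s}
    (hcj : ParityEveryDimension.IsConjBy c cj) :
    ParityEveryDimension.Polarized E cj (ρ.comp (rs s)) (Ω * mat E ρ c) := by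
  have hmm : ∀ σ : GQ, (mat E ρ σ)ᵀ * Ω * mat E ρ σ = cycE (A := A) E σ • Ω := by
    intro σ
    ext i j
    have h := hΩ.inv σ (Pi.single i 1) (Pi.single j 1)
    have h1 : ∀ x y : Fin n → E, (mat E ρ σ *ᵥ x) ⬝ᵥ (Ω *ᵥ (mat E ρ σ *ᵥ y)) =
        x ⬝ᵥ (((mat E ρ σ)ᵀ * Ω * mat E ρ σ) *ᵥ y) := by
      intro x y
      rw [dotProduct_comm, dotProduct_mulVec, ← mulVec_transpose, ← mulVec_mulVec, ← mulVec_mulVec,
        dotProduct_comm]
    rw [h1, single_one_dotProduct, single_one_dotProduct, Matrix.mulVec_single_one,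
      Matrix.mulVec_single_one] at h
    exact h
  have hcc : mat E ρ c * mat E ρ c = 1 := by
    rw [← mat_mul, conj_sq hc, mat_one]
  have hcyc : cycE (A := A) E c = -1 := by
    unfold cycE
    rw [cyc_conj hc, map_neg, map_neg, map_one, map_one]
  refine ⟨?_, ?_⟩
  · unfold Matrix.IsSymm
    have h1 := hmm c
    rw [hcyc] at h1
    -- (mat c)ᵀ Ω = - Ω mat c
    have h2 : (mat E ρ c)ᵀ * Ω = -(Ω * mat E ρ c) := by
      have h3 := congrArg (· * mat E ρ c) h1
      simp only [Matrix.mul_assoc, hcc, Matrix.mul_one] at h3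
      rw [h3]
      simp
    rw [Matrix.transpose_mul, hΩ.alt, Matrix.mul_neg, h2, neg_neg]
  · intro σ x y
    have e1 : ParityEveryDimension.mat E (ρ.comp (rs s)) σ = mat E ρ (rs s σ) := rfl
    have e2 : ParityEveryDimension.mat E (ρ.comp (rs s)) (cj σ) =
        mat E ρ c * mat E ρ (rs s σ) * mat E ρ c := by
      show mat E ρ (rs s (cj σ)) = _
      rw [cj_rs hc hcj, conj_inv hc, mat_mul, mat_mul]
    have e3 : ParityEveryDimension.cycF (A := A) E σ = cycE (A := A) E (rs s σ) := rfl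
    rw [e1, e2, e3]
    have e4 : (Ω * mat E ρ c) *ᵥ ((mat E ρ c * mat E ρ (rs s σ) * mat E ρ c) *ᵥ y) =
        Ω *ᵥ (mat E ρ (rs s σ) *ᵥ (mat E ρ c *ᵥ y)) := by
      simp only [mulVec_mulVec]
      congr 1
      calc Ω * mat E ρ c * (mat E ρ c * mat E ρ (rs s σ) * mat E ρ c)
          = Ω * (mat E ρ c * mat E ρ c) * mat E ρ (rs s σ) * mat E ρ c := by
            simp only [Matrix.mul_assoc]
        _ = Ω * (mat E ρ (rs s σ) * mat E ρ c) := by
            rw [hcc, Matrix.mul_one, Matrix.mul_assoc]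
    rw [e4, hΩ.inv, mulVec_mulVec]

/-- the conjugate function -/
noncomputable def cz (c : GQ) (hn : (GF s).Normal) (z : GF s → Fin n → E) : GF s → Fin n → E :=
  fun σ => mat E ρ c *ᵥ z ⟨c⁻¹ * σ * c, by
    have := hn.conj_mem σ σ.2 c⁻¹
    rwa [inv_inv] at this⟩

lemma cz_coc (c : GQ) (hn : (GF s).Normal) {z : GF s → Fin n → E}
    (hz : ∀ σ τ : GF s, z (σ * τ) = z σ + mat E ρ σ *ᵥ z τ) (σ τ : GF s) :
    cz (ρ := ρ) c hn z (σ * τ) = cz (ρ := ρ) c hn z σ + mat E ρ σ *ᵥ cz (ρ := ρ) c hn z τ := by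
  unfold cz
  have h1 := hz ⟨c⁻¹ * σ * c, by
    have := hn.conj_mem σ σ.2 c⁻¹
    rwa [inv_inv] at this⟩ ⟨c⁻¹ * τ * c, by
    have := hn.conj_mem τ τ.2 c⁻¹
    rwa [inv_inv] at this⟩
  have h2 : (⟨c⁻¹ * σ * c, by
    have := hn.conj_mem σ σ.2 c⁻¹
    rwa [inv_inv] at this⟩ : GF s) * ⟨c⁻¹ * τ * c, by
    have := hn.conj_mem τ τ.2 c⁻¹
    rwa [inv_inv] at this⟩ = ⟨c⁻¹ * ((σ * τ : GF s) : GQ) * c, by
    have := hn.conj_mem _ (σ * τ : GF s).2 c⁻¹
    rwa [inv_inv] at this⟩ := by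
    apply Subtype.ext
    show c⁻¹ * σ * c * (c⁻¹ * τ * c) = c⁻¹ * (σ * τ) * c
    group
  rw [← h2, h1, mulVec_add, mulVec_mulVec, mulVec_mulVec, ← mat_mul, ← mat_mul]
  congr 3
  show c * (c⁻¹ * σ * c) = σ * c
  group

lemma inner {z : GF s → Fin n → E} (hz : ∀ σ τ : GF s, z (σ * τ) = z σ + mat E ρ σ *ᵥ z τ)
    (h δ : GF s) : mat E ρ h *ᵥ z (h⁻¹ * δ * h) = z δ + (mat E ρ δ *ᵥ z h - z h) := by
  have h1 : z 1 = 0 := by
    have := hz 1 1
    rw [mul_one] at this
    have h2 : mat E ρ ((1 : GF s) : GQ) = 1 := mat_one E ρ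
    rw [h2, one_mulVec] at this
    simpa using this
  have h2 : mat E ρ h *ᵥ z h⁻¹ = -z h := by
    have := hz h h⁻¹
    rw [mul_inv_cancel, h1] at this
    exact (neg_eq_of_add_eq_zero_right this.symm).symm
  rw [hz, hz, mulVec_add, mulVec_add, h2, mulVec_mulVec, mulVec_mulVec]
  have e1 : mat E ρ (h : GQ) * mat E ρ ((h⁻¹ : GF s) : GQ) = 1 := by
    rw [← mat_mul]
    show mat E ρ (h * (h : GQ)⁻¹) = 1
    rw [mul_inv_cancel, mat_one]
  have e2 : mat E ρ (h : GQ) * mat E ρ ((h⁻¹ * δ : GF s) : GQ) = mat E ρ δ := by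
    rw [← mat_mul]
    congr 1
    show (h : GQ) * ((h : GQ)⁻¹ * δ) = δ
    group
  rw [e1, e2, one_mulVec]
  abel

/-- the two forms of the condition at the conjugate place -/
lemma orth_iff {Ω : Matrix (Fin n) (Fin n) E} (hn : (GF s).Normal) (hD : Dec ι ≤ GF s) {c : GQ}
    (hc : ParityEveryDimension.IsConjugation c)
    {cj : ParityEveryDimension.Gal s → ParityEveryDimension.Gal s}
    (hcj : ParityEveryDimension.IsConjBy c cj) (l : Dec ι → Fin n → E)
    (z : GF s → Fin n → E) :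
    ParityEveryDimension.Orthogonal E cj (ρ.comp (rs s)) (Ω * mat E ρ c) ι (fun δ => l (eD δ))
      (fun σ => z (e s σ)) ↔
    CupZero E ρ Ω ι l (fun δ : Dec ι => cz (ρ := ρ) c hn z ⟨δ, hD δ.2⟩) := by
  have hcc : mat E ρ c * mat E ρ c = 1 := by
    rw [← mat_mul, conj_sq hc, mat_one]
  have key : ∀ δ δ' : ParityEveryDimension.Dec (s := s) ι,
      l (eD δ) ⬝ᵥ ((Ω * mat E ρ c) *ᵥ (ParityEveryDimension.mat E (ρ.comp (rs s)) (cj δ) *ᵥ
        z (e s (cj δ')))) =
      l (eD δ) ⬝ᵥ (Ω *ᵥ (mat E ρ (eD δ) *ᵥ cz (ρ := ρ) c hn z ⟨eD δ', hD (eD δ').2⟩)) := by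
    intro δ δ'
    have e2 : ParityEveryDimension.mat E (ρ.comp (rs s)) (cj δ) =
        mat E ρ c * mat E ρ (rs s δ) * mat E ρ c := by
      show mat E ρ (rs s (cj δ)) = _
      rw [cj_rs hc hcj, conj_inv hc, mat_mul, mat_mul]
    have e3 : e s (cj δ') = ⟨c⁻¹ * (eD δ' : GQ) * c, by
        have := hn.conj_mem _ (hD (eD δ').2) c⁻¹
        rwa [inv_inv] at this⟩ := Subtype.ext (cj_rs hc hcj (δ' : ParityEveryDimension.Gal s))
    rw [e2, e3]
    congr 1
    show _ = Ω *ᵥ (mat E ρ (rs s δ) *ᵥ (mat E ρ c *ᵥ _))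
    simp only [mulVec_mulVec]
    congr 1
    calc Ω * mat E ρ c * (mat E ρ c * mat E ρ (rs s δ) * mat E ρ c)
        = Ω * (mat E ρ c * mat E ρ c) * mat E ρ (rs s δ) * mat E ρ c := by
          simp only [Matrix.mul_assoc]
      _ = Ω * (mat E ρ (rs s δ) * mat E ρ c) := by
          rw [hcc, Matrix.mul_one, Matrix.mul_assoc]
  constructor
  · rintro ⟨f, hf, h⟩
    refine ⟨fun δ => f (eD' hD δ), Cont.comp (f := fun δ (_ : Fin 1) => f δ) hf (eD'_cont hD),
      fun δ δ' => ?_⟩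
    have h1 := h (eD' hD δ) (eD' hD δ')
    rw [key, eD_eD', eD_eD'] at h1
    refine h1.trans ?_
    have e4 : eD' hD (δ * δ') = eD' hD δ * eD' hD δ' := by
      rw [← eD'_eD hD (eD' hD δ * eD' hD δ'), eD_mul, eD_eD', eD_eD']
    have e5 : ParityEveryDimension.cycF (A := A) E (eD' hD δ : ParityEveryDimension.Gal s) =
        cycE (A := A) E (δ : GQ) := by
      show cycE (A := A) E ((eD (eD' hD δ) : Dec ι) : GQ) = _
      rw [eD_eD']
    show _ = f (eD' hD δ) + cycE (A := A) E (δ : GQ) * f (eD' hD δ') - f (eD' hD (δ * δ'))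
    rw [e4, e5]
  · rintro ⟨f, hf, h⟩
    refine ⟨fun δ => f (eD δ), Cont.comp (f := fun δ (_ : Fin 1) => f δ) hf eD_cont,
      fun δ δ' => ?_⟩
    rw [key, h (eD δ) (eD δ')]
    show _ = f (eD δ) + ParityEveryDimension.cycF (A := A) E (δ : ParityEveryDimension.Gal s) *
      f (eD δ') - f (eD (δ * δ'))
    rw [eD_mul]
    rfl

/-- **Parity over the imaginary quadratic field.** -/
theorem parityK (hd : InClass d) (hs : s ^ 2 = -(d : QBar)) [Module.Finite ℤ_[2] A]
    [Module.Free ℤ_[2] A] (hA : IsAdic (maximalIdeal A)) (hρ : Admissible ρ)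
    {Ω : Matrix (Fin n) (Fin n) E} (hΩ : Symplectic E ρ Ω) {k : ℕ} {l : Fin k → Dec ι → Fin n → E}
    (hl : Lagrangian E ρ Ω ι l) :
    Module.Finite E (Q (selH ρ 1 (GF s) (Dec ι) (Lsp E ρ (Dec ι) l)) (Cob (Mh E ρ Sq.one) (GF s))) ∧
    ∃ r : ℕ, Module.finrank E
      (Q (selH ρ 1 (GF s) (Dec ι) (Lsp E ρ (Dec ι) l)) (Cob (Mh E ρ Sq.one) (GF s))) = r ∧
      r ≤ k ∧ Even (k - r) := by
  have hd' : ParityEveryDimension.InClass d := hd
  have hF : Pool.Agent.Z384.Fld d := hd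
  have hsq : Sq s := by
    refine ⟨?_, -(d : ℚ), by rw [hs]; push_cast; ring⟩
    rintro rfl
    have h1 : (d : QBar) = 0 := by linear_combination hs
    exact hF.ne_zero (by exact_mod_cast h1)
  have hn : (GF s).Normal := by
    have : Fact (Sq s) := ⟨hsq⟩
    infer_instance
  have hD : Dec ι ≤ GF s := dec_le hs hF.mod ι
  obtain ⟨c, hc⟩ := exists_complex
  obtain ⟨cj, hcj⟩ := ParityEveryDimension.exists_conjBy hs hc
  have hcs : c ∉ GF s := by
    rw [mem_GF]
    exact conj_s hc hF.ne_zero hs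
  have hadm : ParityEveryDimension.Admissible (ρ.comp (rs s)) := by
    refine ⟨fun i j => (hρ.cont i j).comp (rs_cont s), fun σ => hρ.unipotent (rs s σ), ?_⟩
    rintro p _ ι' hp σ ⟨τ, h1, h2⟩
    exact hρ.unramified p ι' hp (rs s σ) ⟨τ, fun x => h1 x, h2⟩
  obtain ⟨r, hr, hev, z', h1, h2, h3⟩ := ParityEveryDimension.result d hd' s hs c hc cj hcj A hA E n
    (ρ.comp (rs s)) hadm (Ω * mat E ρ c) (polarized hΩ hc hcj) ι k (fun i δ => l i (eD δ))
    (fun i => ⟨fun δ δ' => by rw [eD_mul, (hl.cocycle i).mul]; rfl,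
      Cont.comp (hl.cocycle i).cont eD_cont⟩)
    (fun a ⟨v, hv⟩ => hl.indep a ⟨v, fun δ => by
      have := hv (eD' hD δ)
      simp only [eD_eD'] at this
      rw [this]
      show mat E ρ ((eD (eD' hD δ) : Dec ι) : GQ) *ᵥ v - v = _
      rw [eD_eD']⟩)
  -- facts on continuity
  have hczc : ∀ z : GF s → Fin n → E, Cont (A := A) E z →
      Cont (A := A) E (cz (ρ := ρ) c hn z) := by
    rintro z ⟨a, b, ha, hb, hab⟩
    refine ⟨a, fun σ i => ((ρ c : Matrix (Fin n) (Fin n) A) *ᵥ b ⟨c⁻¹ * σ * c, by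
      have := hn.conj_mem σ σ.2 c⁻¹
      rwa [inv_inv] at this⟩) i, ha, ?_, fun σ i => ?_⟩
    · refine continuous_pi fun i => ?_
      unfold Matrix.mulVec dotProduct
      refine continuous_finsetSum _ fun j _ => continuous_const.mul ?_
      refine (continuous_apply j).comp (hb.comp ?_)
      exact Continuous.subtype_mk ((continuous_const.mul continuous_subtype_val).mul
        continuous_const) _
    · unfold cz mat
      unfold Matrix.mulVec dotProduct
      rw [map_sum, Finset.mul_sum]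
      refine Finset.sum_congr rfl fun j _ => ?_
      rw [map_mul, ← hab]
      show _ * (algebraMap A E ((ρ c : Matrix (Fin n) (Fin n) A) i j) * _) =
        algebraMap A E ((ρ c : Matrix (Fin n) (Fin n) A) i j) * _
      ring
  have hzero : ∀ (z : GF s → Fin n → E) (p : ℕ) [Fact p.Prime] (ι' : Emb p), p ≠ 2 →
      ((∃ v : Fin n → E, ∀ σ : GF s, (σ : GQ) ∈ Inr ι' → z σ = tw E ρ 1 σ *ᵥ v - v) ↔
        ∀ σ : GF s, (σ : GQ) ∈ Inr ι' → z σ = 0) := by
    intro z p _ ι' hp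
    have h5 : ∀ (σ : GF s) (v : Fin n → E), (σ : GQ) ∈ Inr ι' → tw E ρ 1 σ *ᵥ v - v = 0 := by
      intro σ v h6
      rw [tw_one]
      unfold mat
      rw [hρ.unramified p ι' hp _ h6, Units.val_one, Matrix.map_one _ (map_zero _) (map_one _),
        one_mulVec, sub_self]
    constructor
    · rintro ⟨v, hv⟩ σ h6
      rw [hv σ h6, h5 σ v h6]
    · intro h6
      exact ⟨0, fun σ h7 => by rw [h6 σ h7, h5 σ 0 h7]⟩
  -- the two descriptions of the Selmer group
  have hsel : ∀ z : GF s → Fin n → E, z ∈ selH ρ 1 (GF s) (Dec ι) (Lsp E ρ (Dec ι) l) ↔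
      ParityEveryDimension.InSelmer E cj (ρ.comp (rs s)) (Ω * mat E ρ c) ι (fun i δ => l i (eD δ))
        (fun σ => z (e s σ)) := by
    intro z
    have hcocM : (∀ σ τ : GF s, z (σ * τ) = z σ + tw E ρ 1 σ *ᵥ z τ) ↔
        ∀ σ τ : GF s, z (σ * τ) = z σ + mat E ρ σ *ᵥ z τ := by
      simp only [tw_one]
    constructor
    · rintro ⟨g1, g2, g3, g4⟩
      rw [hcocM] at g1
      refine ⟨⟨fun σ τ => ?_, Cont.comp g2 (e_cont s), fun p _ ι' hp σ hσ => ?_⟩, ?_, fun i => ?_⟩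
      · rw [map_mul, g1]
        rfl
      · obtain ⟨τ, h5, h6⟩ := hσ
        exact (hzero z p ι' hp).1 (g3 p ι' hp) (e s σ) ⟨τ, fun x => h5 x, h6⟩
      · obtain ⟨y, ⟨a, v, hy⟩, hy'⟩ := g4 1
        refine ⟨a, v, fun δ => ?_⟩
        have h5 := hy' (eD δ) (e s δ) (by
          rw [inv_one, one_mul, mul_one]
          rfl)
        rw [hy, tw_one, mat_one, one_mulVec] at h5
        exact h5.symm
      · rw [orth_iff hn hD hc hcj (l i) z]
        refine (hl.perp _ ⟨fun δ δ' => ?_, ?_⟩).1 ?_ i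
        · exact cz_coc c hn g1 ⟨δ, hD δ.2⟩ ⟨δ', hD δ'.2⟩
        · exact Cont.comp (hczc z g2) (Continuous.subtype_mk continuous_subtype_val _)
        · obtain ⟨y, hy, hy'⟩ := g4 c
          have h5 : (fun δ : Dec ι => cz (ρ := ρ) c hn z ⟨δ, hD δ.2⟩) = y := by
            funext δ
            rw [hy' δ ⟨c⁻¹ * δ * c, by
              have := hn.conj_mem _ (hD δ.2) c⁻¹
              rwa [inv_inv] at this⟩ rfl, tw_one]
            rfl
          rw [h5]
          exact hy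
    · rintro ⟨⟨g1, g2, g3⟩, g4, g5⟩
      have g1' : ∀ σ τ : GF s, z (σ * τ) = z σ + mat E ρ σ *ᵥ z τ := by
        intro σ τ
        have h5 := g1 ((e s).symm σ) ((e s).symm τ)
        rw [map_mul, MulEquiv.apply_symm_apply, MulEquiv.apply_symm_apply] at h5
        rw [h5]
        congr 2
      have g2' : Cont (A := A) E z := by
        have h5 := Cont.comp (A := A) (E := E) (f := fun σ => z (e s σ)) g2 (e_symm_cont s)
        have h6 : (fun σ => z (e s ((e s).symm σ))) = z := by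
          funext σ
          rw [MulEquiv.apply_symm_apply]
        rwa [h6] at h5
      have hLv : (fun δ : Dec ι => z ⟨δ, hD δ.2⟩) ∈ Lsp E ρ (Dec ι) l := by
        obtain ⟨a, v, h5⟩ := g4
        refine ⟨a, v, fun δ => ?_⟩
        have h6 := h5 (eD' hD δ)
        have h7 : e s (eD' hD δ : ParityEveryDimension.Gal s) = ⟨δ, hD δ.2⟩ :=
          MulEquiv.apply_symm_apply (e s) _
        simp only [eD_eD', h7] at h6
        refine h6.trans ?_
        congr 2
      have hLc : (fun δ : Dec ι => cz (ρ := ρ) c hn z ⟨δ, hD δ.2⟩) ∈ Lsp E ρ (Dec ι) l := by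
        refine (hl.perp _ ⟨fun δ δ' => ?_, ?_⟩).2 fun i => ?_
        · exact cz_coc c hn g1' ⟨δ, hD δ.2⟩ ⟨δ', hD δ'.2⟩
        · exact Cont.comp (hczc z g2') (Continuous.subtype_mk continuous_subtype_val _)
        · exact (orth_iff hn hD hc hcj (l i) z).1 (g5 i)
      refine ⟨hcocM.2 g1', g2', fun p _ ι' hp => (hzero z p ι' hp).2 fun σ hσ => ?_, fun g => ?_⟩
      · obtain ⟨τ, h5, h6⟩ := hσ
        have h7 := g3 p ι' hp ((e s).symm σ) ⟨τ, fun x => h5 x, h6⟩
        rw [MulEquiv.apply_symm_apply] at h7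
        exact h7
      · by_cases hg : g ∈ GF s
        · refine ⟨fun δ => z ⟨δ, hD δ.2⟩ + (mat E ρ δ *ᵥ z ⟨g, hg⟩ - z ⟨g, hg⟩),
            (Lsp E ρ (Dec ι) l).add_mem hLv (Lsp_cob _ _ _), fun δ h hh => ?_⟩
          have h5 := inner g1' ⟨g, hg⟩ ⟨δ, hD δ.2⟩
          have h6 : (⟨g, hg⟩⁻¹ * ⟨δ, hD δ.2⟩ * ⟨g, hg⟩ : GF s) = h := Subtype.ext hh.symm
          rw [h6] at h5
          rw [tw_one]
          exact h5.symm
        · -- `g = h c`
          obtain ⟨h, hh, rfl⟩ : ∃ h ∈ GF s, g = h * c := ⟨g * c⁻¹, mul_c (index_GF hsq hcs) hcs hg,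
            by group⟩
          refine ⟨fun δ => cz (ρ := ρ) c hn z ⟨δ, hD δ.2⟩ +
            (mat E ρ δ *ᵥ cz (ρ := ρ) c hn z ⟨h, hh⟩ - cz (ρ := ρ) c hn z ⟨h, hh⟩),
            (Lsp E ρ (Dec ι) l).add_mem hLc (Lsp_cob _ _ _), fun δ h' hh' => ?_⟩
          have h5 := inner (cz_coc c hn g1') ⟨h, hh⟩ ⟨δ, hD δ.2⟩
          rw [tw_one, mat_mul, ← mulVec_mulVec]
          have h7 : cz (ρ := ρ) c hn z (⟨h, hh⟩⁻¹ * ⟨δ, hD δ.2⟩ * ⟨h, hh⟩) = mat E ρ c *ᵥ z h' := by
            unfold cz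
            congr 2
            apply Subtype.ext
            rw [hh']
            show c⁻¹ * (h⁻¹ * δ * h) * c = _
            group
          rw [h7] at h5
          exact h5.symm
  have hcomp : ∀ f : ParityEveryDimension.Gal s → Fin n → E,
      (fun σ => (fun τ : GF s => f ((e s).symm τ)) (e s σ)) = f := by
    intro f
    funext σ
    show f ((e s).symm (e s σ)) = f σ
    rw [MulEquiv.symm_apply_apply]
  have hfin := finrank_of (S := selH ρ 1 (GF s) (Dec ι) (Lsp E ρ (Dec ι) l))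
    (B := Cob (Mh E ρ Sq.one) (GF s)) (fun i σ => z' i ((e s).symm σ)) (fun i => by
      rw [hsel, hcomp]
      exact h1 i) (fun a ha => by
      obtain ⟨v, hv⟩ := ha
      refine h2 a ⟨v, fun σ => ?_⟩
      have h5 := hv (e s σ)
      rw [Finset.sum_apply] at h5
      simp only [Pi.smul_apply, MulEquiv.symm_apply_apply] at h5
      rw [h5, Mh_apply, tw_one]
      rfl) (fun y hy => by
      rw [hsel] at hy
      obtain ⟨a, v, h5⟩ := h3 _ hy
      refine ⟨a, v, fun σ => ?_⟩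
      have h6 := h5 ⟨(e s).symm σ, trivial⟩
      simp only [MulEquiv.apply_symm_apply] at h6
      rw [Pi.sub_apply, Finset.sum_apply, h6, Mh_apply, tw_one]
      simp only [Pi.smul_apply, add_sub_cancel_left]
      congr 2)
  exact ⟨hfin.1, r, hfin.2, hr, hev⟩

end

end Pool.Agent.H55.PR
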