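import Pool.Agent.H55.PR.Defs
import Pool.Agent.H55.PR.Abs
import Pool.Agent.R384.Z.Key

/-!
# The Galois groups of the quadratic fields: elementary facts
-/

set_option autoImplicit false

namespace Pool.Agent.H55.PR

open Matrix IsLocalRing

/-- `s` is a square root of a nonzero rational number -/
structure Sq (s : QBar) : Prop where
  ne : s ≠ 0
  rat : ∃ q : ℚ, s ^ 2 = (q : QBar)

namespace Sq

variable {s t : QBar}

lemma or (hs : Sq s) (σ : GQ) : σ s = s ∨ σ s = -s := by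
  obtain ⟨q, hq⟩ := hs.rat
  have h1 : (σ s) ^ 2 = s ^ 2 := by rw [← map_pow, hq, map_ratCast]
  have h2 : (σ s - s) * (σ s + s) = 0 := by linear_combination h1
  rcases mul_eq_zero.1 h2 with h3 | h3
  · exact Or.inl (sub_eq_zero.1 h3)
  · exact Or.inr (eq_neg_of_add_eq_zero_left h3)

lemma neg_ne (hs : Sq s) : -s ≠ s := by
  intro h
  apply hs.ne
  have h2 : (2 : QBar) * s = 0 := by linear_combination -h
  rcases mul_eq_zero.1 h2 with h3 | h3
  · norm_num at h3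
  · exact h3

lemma one : Sq 1 := ⟨one_ne_zero, 1, by norm_num⟩

lemma mul (hs : Sq s) (ht : Sq t) : Sq (s * t) := by
  obtain ⟨q, hq⟩ := hs.rat
  obtain ⟨r, hr⟩ := ht.rat
  exact ⟨mul_ne_zero hs.ne ht.ne, q * r, by rw [mul_pow, hq, hr]; push_cast; ring⟩

lemma sgn_eq (hs : Sq s) (σ : GQ) : (sgn s σ : QBar) * s = σ s := by
  unfold sgn
  rcases hs.or σ with h | h
  · rw [if_pos h, h]
    push_cast
    ring
  · rw [if_neg (by rw [h]; exact hs.neg_ne), h]
    push_cast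
    ring

lemma sgn_or (s : QBar) (σ : GQ) : sgn s σ = 1 ∨ sgn s σ = -1 := by
  unfold sgn
  split_ifs
  · exact Or.inl rfl
  · exact Or.inr rfl

lemma sgn_sq (s : QBar) (σ : GQ) : sgn s σ * sgn s σ = 1 := by
  rcases sgn_or s σ with h | h <;> rw [h] <;> norm_num

lemma int_eq {a b : ℤ} {x : QBar} (hx : x ≠ 0) (h : (a : QBar) * x = (b : QBar) * x) : a = b := by
  have h1 := mul_right_cancel₀ hx h
  exact_mod_cast h1

lemma sgn_mul (hs : Sq s) (σ τ : GQ) : sgn s (σ * τ) = sgn s σ * sgn s τ := by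
  apply int_eq hs.ne
  have e1 : σ ((sgn s τ : ℤ) : QBar) = ((sgn s τ : ℤ) : QBar) := map_intCast σ _
  rw [hs.sgn_eq, AlgEquiv.mul_apply, ← hs.sgn_eq τ, map_mul, e1, ← hs.sgn_eq σ]
  push_cast
  ring

lemma sgn_one (s : QBar) : sgn s 1 = 1 := if_pos (AlgEquiv.one_apply s)

lemma sgn_st (hs : Sq s) (ht : Sq t) (σ : GQ) : sgn (s * t) σ = sgn s σ * sgn t σ := by
  apply int_eq (hs.mul ht).ne
  rw [(hs.mul ht).sgn_eq, map_mul, ← hs.sgn_eq σ, ← ht.sgn_eq σ]
  push_cast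
  ring

lemma sgn_triv (σ : GQ) : sgn 1 σ = 1 := by
  unfold sgn
  rw [if_pos (map_one σ)]

lemma sgn_eq_one (σ : GQ) : sgn s σ = 1 ↔ σ s = s := by
  unfold sgn
  split_ifs with h
  · simp [h]
  · simp [h]

end Sq

lemma mem_GF {t : QBar} {σ : GQ} : σ ∈ GF t ↔ σ t = t := by
  unfold GF
  rw [IntermediateField.mem_fixingSubgroup_iff]
  constructor
  · intro h
    exact h t (IntermediateField.mem_adjoin_simple_self ℚ t)
  · intro h x hx
    have h1 : IntermediateField.adjoin ℚ {t} ≤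
        IntermediateField.fixedField (Subgroup.zpowers σ) := by
      rw [IntermediateField.adjoin_simple_le_iff, IntermediateField.mem_fixedField_iff]
      intro τ hτ
      obtain ⟨k, rfl⟩ := hτ
      have h2 : σ ∈ MulAction.stabilizer GQ t := h
      exact (MulAction.stabilizer GQ t).zpow_mem h2 k
    exact (IntermediateField.mem_fixedField_iff _ x).1 (h1 hx) σ (Subgroup.mem_zpowers σ)

lemma mem_GF_sgn {t : QBar} {σ : GQ} : σ ∈ GF t ↔ sgn t σ = 1 := by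
  rw [mem_GF, Sq.sgn_eq_one]

lemma sgn_not {t : QBar} {σ : GQ} (h : σ ∉ GF t) : sgn t σ = -1 := by
  rcases Sq.sgn_or t σ with h1 | h1
  · exact absurd (mem_GF_sgn.2 h1) h
  · exact h1

instance normal_GF {t : QBar} [ht : Fact (Sq t)] : (GF t).Normal := by
  constructor
  intro σ hσ g
  rw [mem_GF_sgn] at hσ ⊢
  rw [ht.out.sgn_mul, ht.out.sgn_mul, hσ, mul_one, ← ht.out.sgn_mul, mul_inv_cancel, Sq.sgn_one]

lemma index_GF {t : QBar} (ht : Sq t) {c : GQ} (hc : c ∉ GF t) : (GF t).index = 2 := by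
  rw [Subgroup.index_eq_two_iff]
  refine ⟨c, fun b => ?_⟩
  rw [xor_iff_iff_not, mem_GF_sgn, mem_GF_sgn, ht.sgn_mul, sgn_not hc]
  rcases Sq.sgn_or t b with h | h <;> rw [h] <;> norm_num

lemma isOpen_GF (t : QBar) : IsOpen (GF t : Set GQ) := by
  unfold GF
  have h1 : Algebra.IsIntegral ℚ QBar := inferInstance
  have h2 : FiniteDimensional ℚ (IntermediateField.adjoin ℚ {t}) :=
    IntermediateField.adjoin.finiteDimensional (h1.isIntegral t)
  exact IntermediateField.fixingSubgroup_isOpen _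

lemma dec_le {s : QBar} {d : ℕ} (hs : s ^ 2 = -(d : QBar)) (h8 : d % 8 = 7) (ι : Emb 2) :
    Dec ι ≤ GF s := by
  rintro σ ⟨τ, hτ⟩
  rw [mem_GF]
  apply ι.injective
  show ι (σ s) = ι s
  rw [← hτ]
  refine Pool.Agent.Z384.two_fix h8 ?_ τ
  rw [← map_pow, hs, map_neg, map_natCast]

/-! ### Inertia -/

section inr

variable {p : ℕ} [Fact p.Prime] {ι : Emb p}

lemma inr_one : (1 : GQ) ∈ Inr ι := ⟨1, fun _ => rfl, fun z _ => by simp⟩

lemma inr_mul {σ τ : GQ} (h : σ ∈ Inr ι) (h' : τ ∈ Inr ι) : σ * τ ∈ Inr ι := by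
  obtain ⟨a, ha, ha'⟩ := h
  obtain ⟨b, hb, hb'⟩ := h'
  refine ⟨a * b, fun x => ?_, fun z hz => ?_⟩
  · rw [AlgEquiv.mul_apply, hb, ha]
    rfl
  · have hbz : ‖b z‖ ≤ 1 := by
      have h1 := hb' z hz
      calc ‖b z‖ = ‖(b z - z) + z‖ := by rw [sub_add_cancel]
        _ ≤ max ‖b z - z‖ ‖z‖ := IsUltrametricDist.norm_add_le_max _ _
        _ ≤ 1 := max_le h1.le hz
    have e : (a * b) z - z = (a (b z) - b z) + (b z - z) := by
      rw [AlgEquiv.mul_apply]; ring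
    rw [e]
    exact lt_of_le_of_lt (IsUltrametricDist.norm_add_le_max _ _) (max_lt (ha' _ hbz) (hb' z hz))

/-- conjugate embeddings -/
lemma inr_conj {σ g : GQ} (h : g * σ * g⁻¹ ∈ Inr ι) :
    σ ∈ Inr (ι.comp (g : QBar →ₐ[ℚ] QBar)) := by
  obtain ⟨a, ha, ha'⟩ := h
  refine ⟨a, fun x => ?_, ha'⟩
  show a (ι (g x)) = ι (g (σ x))
  rw [ha, ← AlgEquiv.mul_apply, ← AlgEquiv.mul_apply]
  congr 2
  group

lemma inr_conj' {σ g : GQ} (h : σ ∈ Inr ι) :
    g⁻¹ * σ * g ∈ Inr (ι.comp (g : QBar →ₐ[ℚ] QBar)) := by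
  apply inr_conj
  have e : g * (g⁻¹ * σ * g) * g⁻¹ = σ := by group
  rw [e]
  exact h

end inr

end Pool.Agent.H55.PR
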