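import Pool.Agent.H55.PR.Bridge2

/-!
# Even parity over the real quadratic fields
-/

set_option autoImplicit false
set_option linter.unusedSectionVars false

namespace Pool.Agent.H55.PR

open Matrix IsLocalRing Topology
open Pool.Agent.Results.MP_b4b3cb_nt
open PE

/-- squarefree numbers whose product is a square are equal -/
lemma sqf_eq {a b : ℕ} (ha : Squarefree a) (hb : Squarefree b) (h : IsSquare (a * b)) : a = b := by
  obtain ⟨m, hm⟩ := h
  have ha0 := ha.ne_zero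
  have hb0 := hb.ne_zero
  refine Nat.eq_of_factorization_eq ha0 hb0 fun p => ?_
  have h1 := congrArg (fun x => x.factorization p) hm
  have hm0 : m ≠ 0 := by
    rintro rfl
    exact mul_ne_zero ha0 hb0 hm
  simp only [Nat.factorization_mul ha0 hb0, Nat.factorization_mul hm0 hm0, Finsupp.add_apply] at h1
  have h2 := ha.natFactorization_le_one p
  have h3 := hb.natFactorization_le_one p
  omega

/-- a square root of a natural number that is not a square is moved by the Galois group -/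
lemma exists_move {t : QBar} {m : ℕ} (ht : t ^ 2 = (m : QBar)) (hm : ¬ IsSquare m) :
    ∃ c : GQ, c ∉ GF t := by
  by_contra hcon
  push Not at hcon
  have h1 : t ∈ (⊥ : IntermediateField ℚ QBar) := by
    rw [InfiniteGalois.mem_bot_iff_fixed]
    intro σ
    exact mem_GF.1 (hcon σ)
  obtain ⟨q, hq⟩ := IntermediateField.mem_bot.1 h1
  apply hm
  have h2 : ((q ^ 2 : ℚ) : QBar) = ((m : ℚ) : QBar) := by
    push_cast
    rw [← ht, ← hq]
    rfl
  have h3 : q ^ 2 = (m : ℚ) := by exact_mod_cast h2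
  have h4 : IsSquare ((m : ℕ) : ℚ) := ⟨q, by rw [← h3]; ring⟩
  exact_mod_cast (Rat.isSquare_natCast_iff).1 h4

variable {A : Type} [CommRing A] [IsDomain A] [IsLocalRing A] [TopologicalSpace A]
  [IsTopologicalRing A] [Algebra ℤ_[2] A] [Module.Finite ℤ_[2] A] [Module.Free ℤ_[2] A]
  {E : Type} [Field E] [Algebra A E] [IsFractionRing A E]
  {n : ℕ} {ρ : GQ →* GL (Fin n) A}

lemma two_ne (A : Type) [CommRing A] [IsDomain A] [Algebra ℤ_[2] A] [Module.Free ℤ_[2] A]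
    (E : Type) [Field E] [Algebra A E] [IsFractionRing A E] : (2 : E) ≠ 0 := by
  have h1 : (2 : A) ≠ 0 := by
    have h2 : Function.Injective (algebraMap ℤ_[2] A) := FaithfulSMul.algebraMap_injective ℤ_[2] A
    intro h3
    have h4 : algebraMap ℤ_[2] A 2 = algebraMap ℤ_[2] A 0 := by
      rw [map_ofNat, h3, map_zero]
    have h5 := h2 h4
    norm_num at h5
  intro h2
  apply h1
  apply IsFractionRing.injective A E
  rw [map_ofNat, h2, map_zero]

lemma sq_of {s : QBar} {d : ℕ} (hd : d ≠ 0) (hs : s ^ 2 = -(d : QBar)) : Sq s := by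
  refine ⟨?_, -(d : ℚ), by rw [hs]; push_cast; ring⟩
  rintro rfl
  have h1 : (d : QBar) = 0 := by linear_combination hs
  exact hd (by exact_mod_cast h1)

/-- the space of the Selmer classes over `ℚ` depends on the twist only -/
lemma selG_congr {s t : QBar} (h : ∀ σ, sgn s σ = sgn t σ) {D : Subgroup GQ}
    {L : Submodule E (D → Fin n → E)} : selG ρ s D L = selG ρ t D L := by
  have h1 : ∀ σ, tw E ρ s σ = tw E ρ t σ := by
    intro σ
    unfold tw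
    rw [h]
  ext z
  constructor
  · rintro ⟨g1, g2, g3, g4⟩
    refine ⟨fun σ τ => by rw [g1, h1], g2, fun p _ ι' hp => ?_, g4⟩
    obtain ⟨v, hv⟩ := g3 p ι' hp
    exact ⟨v, fun σ hσ => by rw [hv σ hσ, h1]⟩
  · rintro ⟨g1, g2, g3, g4⟩
    refine ⟨fun σ τ => by rw [g1, h1], g2, fun p _ ι' hp => ?_, g4⟩
    obtain ⟨v, hv⟩ := g3 p ι' hp
    exact ⟨v, fun σ hσ => by rw [hv σ hσ, h1]⟩

lemma CobG_congr {s t : QBar} (hs : Sq s) (ht : Sq t) (h : ∀ σ, sgn s σ = sgn t σ) :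
    CobG (Mh E ρ hs) = CobG (Mh E ρ ht) := by
  have h1 : Mh E ρ hs = Mh E ρ ht := by
    refine MonoidHom.ext fun σ => ?_
    rw [Mh_apply, Mh_apply]
    unfold tw
    rw [h]
  rw [h1]

/-- the dimension of the Selmer group over `ℚ` of the twist -/
noncomputable def dimG (ρ : GQ →* GL (Fin n) A) {s : QBar} (hs : Sq s) (D : Subgroup GQ)
    (L : Submodule E (D → Fin n → E)) : ℕ :=
  Module.finrank E (Q (selG ρ s D L) (CobG (Mh E ρ hs)))

lemma dimG_congr {s t : QBar} (hs : Sq s) (ht : Sq t) (h : ∀ σ, sgn s σ = sgn t σ) {D : Subgroup GQ}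
    {L : Submodule E (D → Fin n → E)} : dimG ρ hs D L = dimG ρ ht D L := by
  unfold dimG
  rw [selG_congr h, CobG_congr hs ht h]

lemma fin_congr {s t : QBar} (hs : Sq s) (ht : Sq t) (h : ∀ σ, sgn s σ = sgn t σ) {D : Subgroup GQ}
    {L : Submodule E (D → Fin n → E)}
    (hf : Module.Finite E (Q (selG ρ s D L) (CobG (Mh E ρ hs)))) :
    Module.Finite E (Q (selG ρ t D L) (CobG (Mh E ρ ht))) := by
  rw [← selG_congr h, ← CobG_congr hs ht h]
  exact hf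

section

variable {s : QBar} {d : ℕ} {ι : Emb 2}

/-- the parity over the imaginary quadratic field in terms of the dimensions over `ℚ` -/
theorem parityQ (hd : InClass d) (hs : s ^ 2 = -(d : QBar)) (hA : IsAdic (maximalIdeal A))
    (hρ : Admissible ρ) {Ω : Matrix (Fin n) (Fin n) E} (hΩ : Symplectic E ρ Ω) {k : ℕ}
    {l : Fin k → Dec ι → Fin n → E} (hl : Lagrangian E ρ Ω ι l) (hsq : Sq s) :
    Module.Finite E (Q (selG ρ 1 (Dec ι) (Lsp E ρ (Dec ι) l)) (CobG (Mh E ρ Sq.one))) ∧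
    Module.Finite E (Q (selG ρ s (Dec ι) (Lsp E ρ (Dec ι) l)) (CobG (Mh E ρ hsq))) ∧
    dimG ρ Sq.one (Dec ι) (Lsp E ρ (Dec ι) l) + dimG ρ hsq (Dec ι) (Lsp E ρ (Dec ι) l) ≤ k ∧
    Even (k - (dimG ρ Sq.one (Dec ι) (Lsp E ρ (Dec ι) l) +
      dimG ρ hsq (Dec ι) (Lsp E ρ (Dec ι) l))) := by
  have hF : Pool.Agent.Z384.Fld d := hd
  obtain ⟨hfin, r, hr, hrk, hev⟩ := parityK hd hs hA hρ hΩ hl
  obtain ⟨c, hc⟩ := exists_complex
  have hcs : c ∉ GF s := by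
    rw [mem_GF]
    exact conj_s hc hF.ne_zero hs
  have hD1 : Dec ι ≤ GF 1 := fun σ _ => mem_GF.2 (map_one σ)
  obtain ⟨eq⟩ := decomp (ρ := ρ) (two_ne A E) hρ.cont Sq.one hsq hcs hD1
    (dec_le hs hF.mod ι) (L := Lsp E ρ (Dec ι) l) (fun v => Lsp_cob _ _ v)
  have hsg : ∀ σ, sgn (1 * s) σ = sgn s σ := fun σ => by rw [one_mul]
  have hfp := Module.Finite.equiv eq
  have hf1 : Module.Finite E (Q (selG ρ 1 (Dec ι) (Lsp E ρ (Dec ι) l)) (CobG (Mh E ρ Sq.one))) :=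
    Module.Finite.of_surjective (LinearMap.fst E
      (Q (selG ρ 1 (Dec ι) (Lsp E ρ (Dec ι) l)) (CobG (Mh E ρ Sq.one)))
      (Q (selG ρ (1 * s) (Dec ι) (Lsp E ρ (Dec ι) l)) (CobG (Mh E ρ (Sq.one.mul hsq)))))
      LinearMap.fst_surjective
  have hf2 : Module.Finite E (Q (selG ρ (1 * s) (Dec ι) (Lsp E ρ (Dec ι) l))
      (CobG (Mh E ρ (Sq.one.mul hsq)))) :=
    Module.Finite.of_surjective (LinearMap.snd E
      (Q (selG ρ 1 (Dec ι) (Lsp E ρ (Dec ι) l)) (CobG (Mh E ρ Sq.one)))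
      (Q (selG ρ (1 * s) (Dec ι) (Lsp E ρ (Dec ι) l)) (CobG (Mh E ρ (Sq.one.mul hsq)))))
      LinearMap.snd_surjective
  have h1 := eq.finrank_eq
  rw [Module.finrank_prod, hr] at h1
  have h2 : dimG ρ (Sq.one.mul hsq) (Dec ι) (Lsp E ρ (Dec ι) l) =
      dimG ρ hsq (Dec ι) (Lsp E ρ (Dec ι) l) := dimG_congr _ _ hsg
  have h3 : r = dimG ρ Sq.one (Dec ι) (Lsp E ρ (Dec ι) l) +
      dimG ρ hsq (Dec ι) (Lsp E ρ (Dec ι) l) := by
    rw [← h2]
    exact h1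
  refine ⟨hf1, fin_congr _ hsq hsg hf2, ?_, ?_⟩
  · rw [← h3]
    exact hrk
  · rw [← h3]
    exact hev

end

/-- **Even parity.** -/
theorem even {d d' : ℕ} (hd : InClass d) (hd' : InClass d') (hne : d ≠ d') {s s' : QBar}
    (hs : s ^ 2 = -(d : QBar)) (hs' : s' ^ 2 = -(d' : QBar)) (hA : IsAdic (maximalIdeal A))
    (hρ : Admissible ρ) {Ω : Matrix (Fin n) (Fin n) E} (hΩ : Symplectic E ρ Ω) {ι : Emb 2} {k : ℕ}
    {l : Fin k → Dec ι → Fin n → E} (hl : Lagrangian E ρ Ω ι l) :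
    ∃ r : ℕ, Even r ∧ r ≤ 2 * k ∧ ∃ z : Fin r → GF (s * s') → Fin n → E,
      (∀ i, InSelmer E ρ s (s * s') ι l (z i)) ∧
      Independent E (fun σ : GF (s * s') => tw E ρ s σ) z ∧
      ∀ y, InSelmer E ρ s (s * s') ι l y →
        InSpan E (fun σ : GF (s * s') => tw E ρ s σ) z y := by
  have hF : Pool.Agent.Z384.Fld d := hd
  have hF' : Pool.Agent.Z384.Fld d' := hd'
  have hsq := sq_of hF.ne_zero hs
  have hsq' := sq_of hF'.ne_zero hs'
  have ht : Sq (s * s') := hsq.mul hsq'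
  have ht2 : (s * s') ^ 2 = ((d * d' : ℕ) : QBar) := by
    rw [mul_pow, hs, hs']
    push_cast
    ring
  have hnsq : ¬ IsSquare (d * d') := fun h => hne (sqf_eq hF.sqf hF'.sqf h)
  obtain ⟨c, hc⟩ := exists_move ht2 hnsq
  have hDs := dec_le hs hF.mod ι
  have hDs' := dec_le hs' hF'.mod ι
  have hDt : Dec ι ≤ GF (s * s') := by
    intro σ hσ
    rw [mem_GF_sgn, hsq.sgn_st hsq', mem_GF_sgn.1 (hDs hσ), mem_GF_sgn.1 (hDs' hσ), one_mul]
  obtain ⟨eq⟩ := decomp (ρ := ρ) (two_ne A E) hρ.cont hsq ht hc hDs hDt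
    (L := Lsp E ρ (Dec ι) l) (fun v => Lsp_cob _ _ v)
  obtain ⟨f1, f2, h1, h2⟩ := parityQ hd hs hA hρ hΩ hl hsq
  obtain ⟨f1', f2', h1', h2'⟩ := parityQ hd' hs' hA hρ hΩ hl hsq'
  have hsg : ∀ σ, sgn (s * (s * s')) σ = sgn s' σ := by
    intro σ
    rw [hsq.sgn_st ht, hsq.sgn_st hsq', ← mul_assoc, Sq.sgn_sq, one_mul]
  have f3 := fin_congr (ρ := ρ) hsq' (hsq.mul ht) (fun σ => (hsg σ).symm) f2'
  have hfin : Module.Finite E (Q (selH ρ s (GF (s * s')) (Dec ι) (Lsp E ρ (Dec ι) l))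
      (Cob (Mh E ρ hsq) (GF (s * s')))) := Module.Finite.equiv eq.symm
  have hfr := eq.finrank_eq
  rw [Module.finrank_prod] at hfr
  have h3 : dimG ρ (hsq.mul ht) (Dec ι) (Lsp E ρ (Dec ι) l) =
      dimG ρ hsq' (Dec ι) (Lsp E ρ (Dec ι) l) := dimG_congr _ _ hsg
  have h4 : Module.finrank E (Q (selH ρ s (GF (s * s')) (Dec ι) (Lsp E ρ (Dec ι) l))
      (Cob (Mh E ρ hsq) (GF (s * s')))) = dimG ρ hsq (Dec ι) (Lsp E ρ (Dec ι) l) +
      dimG ρ hsq' (Dec ι) (Lsp E ρ (Dec ι) l) := by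
    rw [← h3]
    exact hfr
  obtain ⟨z, hz1, hz2, hz3⟩ := exists_family
    (S := selH ρ s (GF (s * s')) (Dec ι) (Lsp E ρ (Dec ι) l))
    (B := Cob (Mh E ρ hsq) (GF (s * s')))
  refine ⟨_, ?_, ?_, z, fun i => ?_, fun a ⟨v, hv⟩ => ?_, fun y hy => ?_⟩
  · rw [h4]
    rw [Nat.even_iff] at h2 h2' ⊢
    omega
  · rw [h4]
    omega
  · obtain ⟨g1, g2, g3, g4⟩ := hz1 i
    exact ⟨g1, g2, g3, g4⟩
  · refine hz2 a ⟨v, fun σ => ?_⟩
    rw [Finset.sum_apply]
    exact hv σ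
  · obtain ⟨a, v, hv⟩ := hz3 y ⟨hy.mul, hy.cont, hy.unramified, hy.two⟩
    refine ⟨a, v, fun σ => ?_⟩
    have h5 := hv σ
    rw [Pi.sub_apply, Finset.sum_apply] at h5
    show y σ = _ + (tw E ρ s σ *ᵥ v - v)
    rw [← Mh_apply E ρ hsq, ← h5]
    simp only [Pi.smul_apply]
    abel

end Pool.Agent.H55.PR
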