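import Pool.Agent.H55.PR.Gal

/-!
# Selmer groups over `ℚ` and over a quadratic field
-/

set_option autoImplicit false
set_option linter.unusedSectionVars false

namespace Pool.Agent.H55.PR

open Matrix IsLocalRing

section base

variable {A : Type} [CommRing A] (E : Type) [Field E] [Algebra A E] {n : ℕ}
  (ρ : GQ →* GL (Fin n) A)

lemma mat_mul (σ τ : GQ) : mat E ρ (σ * τ) = mat E ρ σ * mat E ρ τ := by
  unfold mat
  rw [map_mul, Units.val_mul, Matrix.map_mul]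

lemma mat_one : mat E ρ 1 = 1 := by
  unfold mat
  rw [map_one, Units.val_one]
  exact Matrix.map_one _ (map_zero _) (map_one _)

/-- the representation `V ⊗ sgn s` as a homomorphism -/
noncomputable def Mh {s : QBar} (hs : Sq s) : GQ →* Matrix (Fin n) (Fin n) E where
  toFun := tw E ρ s
  map_one' := by
    unfold tw
    rw [Sq.sgn_one, mat_one]
    simp
  map_mul' σ τ := by
    unfold tw
    rw [hs.sgn_mul, mat_mul, Matrix.smul_mul, Matrix.mul_smul, smul_smul]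
    push_cast
    rfl

lemma Mh_apply {s : QBar} (hs : Sq s) (σ : GQ) : Mh E ρ hs σ = tw E ρ s σ := rfl

lemma tw_of {s : QBar} {σ : GQ} (h : σ ∈ GF s) : tw E ρ s σ = mat E ρ σ := by
  unfold tw
  rw [mem_GF_sgn.1 h]
  simp

lemma tw_one (σ : GQ) : tw E ρ 1 σ = mat E ρ σ := by
  unfold tw
  rw [Sq.sgn_triv]
  simp

lemma tw_st {s t : QBar} (hs : Sq s) (ht : Sq t) (σ : GQ) :
    tw E ρ (s * t) σ = (sgn t σ : E) • tw E ρ s σ := by
  unfold tw
  rw [hs.sgn_st ht, smul_smul]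
  push_cast
  ring_nf

end base

section cont

variable {A : Type} [CommRing A] [IsDomain A] [TopologicalSpace A] [IsTopologicalRing A]
  (E : Type) [Field E] [Algebra A E] [IsFractionRing A E]

variable {E}

lemma Cont.add {G : Type} [TopologicalSpace G] {k : ℕ} {f g : G → Fin k → E}
    (hf : Cont (A := A) E f) (hg : Cont (A := A) E g) : Cont (A := A) E (f + g) := by
  obtain ⟨a, b, ha, hb, hab⟩ := hf
  obtain ⟨a', b', ha', hb', hab'⟩ := hg
  refine ⟨a * a', fun x i => a' * b x i + a * b' x i, ?_, ?_, fun x i => ?_⟩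
  · rw [map_mul]
    exact mul_ne_zero ha ha'
  · refine continuous_pi fun i => ?_
    exact (continuous_const.mul ((continuous_apply i).comp hb)).add
      (continuous_const.mul ((continuous_apply i).comp hb'))
  · simp only [Pi.add_apply, map_add, map_mul, ← hab, ← hab']
    ring

lemma Cont.smul {G : Type} [TopologicalSpace G] {k : ℕ} {f : G → Fin k → E}
    (hf : Cont (A := A) E f) (x : E) : Cont (A := A) E (x • f) := by
  obtain ⟨a, b, ha, hb, hab⟩ := hf
  obtain ⟨u, v, hv, rfl⟩ := IsFractionRing.div_surjective (A := A) x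
  have hv0 : algebraMap A E v ≠ 0 := IsFractionRing.to_map_ne_zero_of_mem_nonZeroDivisors hv
  refine ⟨v * a, fun x i => u * b x i, ?_, ?_, fun x i => ?_⟩
  · rw [map_mul]
    exact mul_ne_zero hv0 ha
  · refine continuous_pi fun i => ?_
    exact continuous_const.mul ((continuous_apply i).comp hb)
  · simp only [Pi.smul_apply, smul_eq_mul, map_mul, ← hab]
    field_simp

lemma Cont.zero {G : Type} [TopologicalSpace G] {k : ℕ} :
    Cont (A := A) E (0 : G → Fin k → E) := by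
  refine ⟨1, fun _ _ => 0, ?_, continuous_const, fun x i => ?_⟩
  · rw [map_one]
    exact one_ne_zero
  · simp

lemma Cont.comp {G G' : Type} [TopologicalSpace G] [TopologicalSpace G'] {k : ℕ} {f : G → Fin k → E}
    (hf : Cont (A := A) E f) {φ : G' → G} (hφ : Continuous φ) :
    Cont (A := A) E (fun x => f (φ x)) := by
  obtain ⟨a, b, ha, hb, hab⟩ := hf
  exact ⟨a, fun x => b (φ x), ha, hb.comp hφ, fun x i => hab _ _⟩

end cont

variable {A : Type} [CommRing A] [IsDomain A] [TopologicalSpace A] [IsTopologicalRing A]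
  {E : Type} [Field E] [Algebra A E] [IsFractionRing A E] {n : ℕ}
  {ρ : GQ →* GL (Fin n) A}

variable (ρ) in
/-- the cocycles of `H` with values in `V ⊗ sgn s` which satisfy the local conditions; `D` is a
subgroup of `GQ` and `L` is a subspace of the functions on `D` -/
def selH (s : QBar) (H D : Subgroup GQ) (L : Submodule E (D → Fin n → E)) :
    Submodule E (H → Fin n → E) where
  carrier := {z | (∀ σ τ : H, z (σ * τ) = z σ + tw E ρ s σ *ᵥ z τ) ∧ Cont (A := A) E z ∧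
    (∀ (p : ℕ) [Fact p.Prime] (ι' : Emb p), p ≠ 2 →
      ∃ v : Fin n → E, ∀ σ : H, (σ : GQ) ∈ Inr ι' → z σ = tw E ρ s σ *ᵥ v - v) ∧
    (∀ g : GQ, ∃ y ∈ L, ∀ (δ : D) (h : H), (h : GQ) = g⁻¹ * δ * g → y δ = tw E ρ s g *ᵥ z h)}
  add_mem' := by
    rintro a b ⟨h1, h2, h3, h4⟩ ⟨h1', h2', h3', h4'⟩
    refine ⟨fun σ τ => ?_, h2.add h2', fun p _ ι' hp => ?_, fun g => ?_⟩
    · simp only [Pi.add_apply, h1 σ τ, h1' σ τ, mulVec_add]
      abel
    · obtain ⟨v, hv⟩ := h3 p ι' hp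
      obtain ⟨w, hw⟩ := h3' p ι' hp
      refine ⟨v + w, fun σ hσ => ?_⟩
      simp only [Pi.add_apply, hv σ hσ, hw σ hσ, mulVec_add]
      abel
    · obtain ⟨y, hy, hy'⟩ := h4 g
      obtain ⟨w, hw, hw'⟩ := h4' g
      refine ⟨y + w, L.add_mem hy hw, fun δ h hh => ?_⟩
      simp only [Pi.add_apply, hy' δ h hh, hw' δ h hh, mulVec_add]
  zero_mem' := by
    refine ⟨fun σ τ => by simp, Cont.zero, fun p _ ι' hp => ⟨0, fun σ _ => by simp⟩,
      fun g => ⟨0, L.zero_mem, fun δ h _ => by simp⟩⟩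
  smul_mem' := by
    rintro x a ⟨h1, h2, h3, h4⟩
    refine ⟨fun σ τ => ?_, h2.smul x, fun p _ ι' hp => ?_, fun g => ?_⟩
    · simp only [Pi.smul_apply, h1 σ τ, mulVec_smul, smul_add]
    · obtain ⟨v, hv⟩ := h3 p ι' hp
      refine ⟨x • v, fun σ hσ => ?_⟩
      simp only [Pi.smul_apply, hv σ hσ, mulVec_smul, smul_sub]
    · obtain ⟨y, hy, hy'⟩ := h4 g
      refine ⟨x • y, L.smul_mem x hy, fun δ h hh => ?_⟩
      simp only [Pi.smul_apply, hy' δ h hh, mulVec_smul]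

variable (ρ) in
/-- the cocycles of `GQ` with values in `V ⊗ sgn s` which satisfy the local conditions -/
def selG (s : QBar) (D : Subgroup GQ) (L : Submodule E (D → Fin n → E)) :
    Submodule E (GQ → Fin n → E) where
  carrier := {z | (∀ σ τ : GQ, z (σ * τ) = z σ + tw E ρ s σ *ᵥ z τ) ∧ Cont (A := A) E z ∧
    (∀ (p : ℕ) [Fact p.Prime] (ι' : Emb p), p ≠ 2 →
      ∃ v : Fin n → E, ∀ σ ∈ Inr ι', z σ = tw E ρ s σ *ᵥ v - v) ∧
    (fun δ : D => z δ) ∈ L}
  add_mem' := by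
    rintro a b ⟨h1, h2, h3, h4⟩ ⟨h1', h2', h3', h4'⟩
    refine ⟨fun σ τ => ?_, h2.add h2', fun p _ ι' hp => ?_, L.add_mem h4 h4'⟩
    · simp only [Pi.add_apply, h1 σ τ, h1' σ τ, mulVec_add]
      abel
    · obtain ⟨v, hv⟩ := h3 p ι' hp
      obtain ⟨w, hw⟩ := h3' p ι' hp
      refine ⟨v + w, fun σ hσ => ?_⟩
      simp only [Pi.add_apply, hv σ hσ, hw σ hσ, mulVec_add]
      abel
  zero_mem' := by
    refine ⟨fun σ τ => by simp, Cont.zero, fun p _ ι' hp => ⟨0, fun σ _ => by simp⟩, L.zero_mem⟩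
  smul_mem' := by
    rintro x a ⟨h1, h2, h3, h4⟩
    refine ⟨fun σ τ => ?_, h2.smul x, fun p _ ι' hp => ?_, L.smul_mem x h4⟩
    · simp only [Pi.smul_apply, h1 σ τ, mulVec_smul, smul_add]
    · obtain ⟨v, hv⟩ := h3 p ι' hp
      refine ⟨x • v, fun σ hσ => ?_⟩
      simp only [Pi.smul_apply, hv σ hσ, mulVec_smul, smul_sub]

section ext

variable {H : Subgroup GQ} (hi : H.index = 2) (hH : IsOpen (H : Set GQ)) {c : GQ} (hc : c ∉ H)

include hi hH hc in
/-- corestriction preserves continuity -/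
lemma cont_cor {s : QBar} (hs : Sq s) (hρ : ∀ i j, Continuous fun σ =>
    (ρ σ : Matrix (Fin n) (Fin n) A) i j) {z : H → Fin n → E} (hz : Cont (A := A) E z) :
    Cont (A := A) E (cor (Mh E ρ hs) H c z) := by
  classical
  obtain ⟨a, b, ha, hb, hab⟩ := hz
  -- the extension of `b`
  set β : GQ → Fin n → A := fun σ => if h : σ ∈ H then b ⟨σ, h⟩ else
    if h' : σ * c⁻¹ ∈ H then b ⟨σ * c⁻¹, h'⟩ else 0 with hβ
  have hcl : IsClosed (H : Set GQ) := Subgroup.isClosed_of_isOpen H hH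
  have hβc : Continuous β := by
    rw [← continuousOn_univ, ← Set.union_compl_self (H : Set GQ)]
    refine ContinuousOn.union_of_isOpen ?_ ?_ hH hcl.isOpen_compl
    · rw [continuousOn_iff_continuous_domRestrict]
      have e : (H : Set GQ).domRestrict β = b := by
        funext σ
        show β σ = b σ
        rw [hβ]
        exact dif_pos σ.2
      rw [e]
      exact hb
    · rw [continuousOn_iff_continuous_domRestrict]
      have e : ((H : Set GQ)ᶜ).domRestrict β = fun σ : ((H : Set GQ)ᶜ : Set GQ) =>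
          b ⟨(σ : GQ) * c⁻¹, mul_c hi hc σ.2⟩ := by
        funext σ
        show β σ = _
        rw [hβ]
        show (if h : (σ : GQ) ∈ H then b ⟨σ, h⟩ else
          if h' : (σ : GQ) * c⁻¹ ∈ H then b ⟨σ * c⁻¹, h'⟩ else 0) = _
        have h0 : (σ : GQ) ∉ H := σ.2
        rw [dif_neg h0, dif_pos (mul_c hi hc h0)]
      rw [e]
      refine hb.comp ?_
      exact (continuous_subtype_val.mul continuous_const).subtype_mk _
  have hβz : ∀ σ i, algebraMap A E a * ext H c z σ i = algebraMap A E (β σ i) := by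
    intro σ i
    rw [hβ]
    show _ = algebraMap A E ((if h : (σ : GQ) ∈ H then b ⟨σ, h⟩ else
          if h' : (σ : GQ) * c⁻¹ ∈ H then b ⟨σ * c⁻¹, h'⟩ else 0) i)
    unfold ext
    split_ifs with h h'
    · exact hab _ _
    · exact hab _ _
    · simp
  refine ⟨a, fun σ i => β σ i + (sgn s c⁻¹ : A) *
    ((ρ c⁻¹ : Matrix (Fin n) (Fin n) A) *ᵥ β (c * σ)) i, ha, ?_, fun σ i => ?_⟩
  · refine continuous_pi fun i => ((continuous_apply i).comp hβc).add (continuous_const.mul ?_)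
    unfold Matrix.mulVec dotProduct
    refine continuous_finsetSum _ fun j _ => continuous_const.mul ?_
    exact (continuous_apply j).comp (hβc.comp (continuous_const.mul continuous_id))
  · rw [cor_apply, Pi.add_apply, mul_add, hβz, map_add]
    congr 1
    rw [Mh_apply]
    unfold tw mat
    rw [smul_mulVec, Pi.smul_apply, smul_eq_mul, map_mul, map_intCast, mul_left_comm]
    congr 1
    unfold Matrix.mulVec dotProduct
    rw [map_sum, Finset.mul_sum]
    refine Finset.sum_congr rfl fun j _ => ?_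
    rw [map_mul, ← hβz]
    show _ * (algebraMap A E ((ρ c⁻¹ : Matrix (Fin n) (Fin n) A) i j) * _) =
      algebraMap A E ((ρ c⁻¹ : Matrix (Fin n) (Fin n) A) i j) * _
    ring

end ext

/-- a cocycle which is a coboundary on the intersection of `I` with a subgroup of index two is a
coboundary on `I` -/
lemma cob_of_half (h2 : (2 : E) ≠ 0) {M : GQ →* Matrix (Fin n) (Fin n) E} {H : Subgroup GQ}
    (hi : H.index = 2) {I : Set GQ} (hI : ∀ σ ∈ I, ∀ τ ∈ I, σ * τ ∈ I) {a : GQ → Fin n → E}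
    (ha : a ∈ CocG M) {v : Fin n → E} (hv : ∀ σ ∈ I, σ ∈ H → a σ = M σ *ᵥ v - v) :
    ∃ w : Fin n → E, ∀ σ ∈ I, a σ = M σ *ᵥ w - w := by
  by_cases hIH : ∃ c ∈ I, c ∉ H
  · obtain ⟨c, hcI, hcH⟩ := hIH
    -- the cocycle `b = a - coboundary of v`
    set b : GQ → Fin n → E := fun σ => a σ - (M σ *ᵥ v - v) with hb
    have hbm : ∀ σ τ, b (σ * τ) = b σ + M σ *ᵥ b τ := by
      intro σ τ
      simp only [hb, ha σ τ, map_mul, mulVec_sub, mulVec_mulVec]
      abel
    have hb0 : ∀ σ ∈ I, σ ∈ H → b σ = 0 := by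
      intro σ h1 h3
      simp only [hb, hv σ h1 h3, sub_self]
    set u := b c with hu
    have hcc : M c *ᵥ u = -u := by
      have h1 := hbm c c
      rw [hb0 (c * c) (hI c hcI c hcI) (by
        rw [Subgroup.mul_mem_iff_of_index_two hi])] at h1
      rw [← hu] at h1
      exact (neg_eq_of_add_eq_zero_right h1.symm).symm
    have hMu : ∀ σ ∈ I, σ ∈ H → M σ *ᵥ u = u := by
      intro σ h1 h3
      have h4 : σ * c ∉ H := by
        rw [Subgroup.mul_mem_iff_of_index_two hi]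
        tauto
      have h5 : c * (σ * c) ∈ H := by
        rw [Subgroup.mul_mem_iff_of_index_two hi]
        tauto
      have h6 := hbm c (σ * c)
      rw [hb0 _ (hI c hcI _ (hI σ h1 c hcI)) h5, hbm σ c, hb0 σ h1 h3, zero_add, ← hu,
        mulVec_mulVec, ← map_mul] at h6
      -- `M (c σ) u = - u`
      have h7 : M (c * σ) *ᵥ u = -u := (neg_eq_of_add_eq_zero_right h6.symm).symm
      have h14 : M c *ᵥ (M σ *ᵥ u) = M c *ᵥ u := by
        rw [mulVec_mulVec, ← map_mul, h7, hcc]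
      have h15 := congrArg (fun x => M c⁻¹ *ᵥ x) h14
      simp only [mulVec_mulVec, ← mul_assoc, ← map_mul, inv_mul_cancel, one_mul] at h15
      simpa using h15
    refine ⟨v - (2 : E)⁻¹ • u, fun σ hσ => ?_⟩
    by_cases h3 : σ ∈ H
    · rw [hv σ hσ h3, mulVec_sub, mulVec_smul, hMu σ hσ h3]
      abel
    · -- `σ c ∈ H`
      have h4 : σ * c ∈ H := by
        rw [Subgroup.mul_mem_iff_of_index_two hi]
        tauto
      have h5 : M (σ * c) *ᵥ u = u := hMu _ (hI σ hσ c hcI) h4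
      have h6 : M σ *ᵥ u = -u := by
        rw [map_mul, ← mulVec_mulVec, hcc, mulVec_neg] at h5
        rw [← h5, neg_neg, h5]
      have h7 : b σ = u := by
        have h8 := hbm σ c
        rw [hb0 _ (hI σ hσ c hcI) h4, ← hu, h6] at h8
        exact (sub_eq_zero.1 (by rw [sub_eq_add_neg]; exact h8.symm))
      have h8 : a σ = u + (M σ *ᵥ v - v) := by
        rw [← h7]
        simp only [hb, sub_add_cancel]
      have h9 : (2 : E)⁻¹ • u + (2 : E)⁻¹ • u = u := by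
        rw [← add_smul, ← two_mul, mul_inv_cancel₀ h2, one_smul]
      rw [h8, mulVec_sub, mulVec_smul, h6, smul_neg]
      conv_lhs => rw [← h9]
      abel
  · push Not at hIH
    exact ⟨v, fun σ hσ => hv σ hσ (hIH σ hσ)⟩

section facts

variable {s t : QBar} {D : Subgroup GQ} {L : Submodule E (D → Fin n → E)}

/-- restriction -/
lemma res_mem (hs : Sq s) {H : Subgroup GQ} (hDs : D ≤ GF s)
    (hL : ∀ v : Fin n → E, (fun δ : D => mat E ρ δ *ᵥ v - v) ∈ L) {a : GQ → Fin n → E}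
    (ha : a ∈ selG ρ s D L) : res H a ∈ selH ρ s H D L := by
  obtain ⟨h1, h2, h3, h4⟩ := ha
  have hC : a ∈ CocG (Mh E ρ hs) := h1
  refine ⟨fun σ τ => h1 σ τ, h2.comp continuous_subtype_val, fun p _ ι' hp => ?_, fun g => ?_⟩
  · obtain ⟨v, hv⟩ := h3 p ι' hp
    exact ⟨v, fun σ hσ => hv σ hσ⟩
  · refine ⟨fun δ => a δ + (mat E ρ δ *ᵥ a g - a g), L.add_mem h4 (hL (a g)), fun δ h hh => ?_⟩
    show _ = tw E ρ s g *ᵥ a h
    have e0 := coc_inv hC g
    have hM := Mh_apply E ρ hs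
    rw [hh, h1 (g⁻¹ * δ) g, h1 g⁻¹ δ, ← hM, ← hM, ← hM, e0]
    simp only [mulVec_add, mulVec_neg, mulVec_mulVec, ← map_mul]
    have e1 : g * g⁻¹ = 1 := by group
    have e2 : g * (g⁻¹ * (δ : GQ)) = δ := by group
    rw [e1, e2, map_one, one_mulVec, one_mulVec, hM, tw_of E ρ (hDs δ.2)]
    abel

/-- corestriction -/
lemma cor_mem' (h2' : (2 : E) ≠ 0) (hρ : ∀ i j, Continuous fun σ =>
    (ρ σ : Matrix (Fin n) (Fin n) A) i j) (hs : Sq s) {H : Subgroup GQ} (hi : H.index = 2)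
    (hn : H.Normal) (hH : IsOpen (H : Set GQ)) {c : GQ} (hc : c ∉ H) (hDH : D ≤ H) {z : H → Fin n → E}
    (hz : z ∈ selH ρ s H D L) : cor (Mh E ρ hs) H c z ∈ selG ρ s D L := by
  obtain ⟨h1, h2, h3, h4⟩ := hz
  have hM := Mh_apply E ρ hs
  have hC : z ∈ Coc (Mh E ρ hs) H := h1
  have hcoc := cor_coc hi hc hC
  refine ⟨fun σ τ => hcoc σ τ, cont_cor hi hH hc hs hρ h2, fun p _ ι' hp => ?_, ?_⟩
  · obtain ⟨v, hv⟩ := h3 p ι' hp
    obtain ⟨w, hw⟩ := h3 p (ι'.comp ((c⁻¹ : GQ) : QBar →ₐ[ℚ] QBar)) hp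
    refine cob_of_half (v := v + Mh E ρ hs c⁻¹ *ᵥ w) h2' hi (fun σ h τ h' => inr_mul h h') hcoc ?_
    intro σ hσ hσH
    have h5 : c * σ * c⁻¹ ∈ Inr (ι'.comp ((c⁻¹ : GQ) : QBar →ₐ[ℚ] QBar)) := by
      have := inr_conj' (g := c⁻¹) hσ
      rwa [inv_inv] at this
    rw [cor_mem hi hc z hσH, hv ⟨σ, hσH⟩ hσ, hw ⟨c * σ * c⁻¹, conj hi hc hσH⟩ h5, ← hM, ← hM]
    simp only [mulVec_add, mulVec_sub, mulVec_mulVec, ← map_mul]
    have e1 : c⁻¹ * (c * σ * c⁻¹) = σ * c⁻¹ := by group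
    rw [e1]
    abel
  · obtain ⟨y, hy, hy'⟩ := h4 1
    obtain ⟨w, hw, hw'⟩ := h4 c⁻¹
    have e : (fun δ : D => cor (Mh E ρ hs) H c z δ) = y + w := by
      funext δ
      rw [cor_mem hi hc z (hDH δ.2), Pi.add_apply, hy' δ ⟨δ, hDH δ.2⟩ (by simp),
        hw' δ ⟨c * δ * c⁻¹, conj hi hc (hDH δ.2)⟩ (by simp), ← hM, ← hM, map_one, one_mulVec]
    rw [e]
    exact L.add_mem hy hw

/-- the same space for the two twists -/
lemma selH_st (hs : Sq s) (ht : Sq t) : selH (E := E) ρ (s * t) (GF t) D L = selH ρ s (GF t) D L := by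
  have key : ∀ σ : GF t, tw E ρ (s * t) σ = tw E ρ s σ := by
    intro σ
    rw [tw_st E ρ hs ht, mem_GF_sgn.1 σ.2]
    simp
  have key3 : ∀ g : GQ, ∃ x : E, ∀ v : Fin n → E, tw E ρ (s * t) g *ᵥ v = x • (tw E ρ s g *ᵥ v) ∧
      tw E ρ s g *ᵥ v = x • (tw E ρ (s * t) g *ᵥ v) := by
    intro g
    refine ⟨(sgn t g : E), fun v => ?_⟩
    rw [tw_st E ρ hs ht, smul_mulVec]
    refine ⟨rfl, ?_⟩
    rw [smul_smul, ← Int.cast_mul, Sq.sgn_sq]
    simp
  ext z
  constructor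
  · rintro ⟨h1, h2, h3, h4⟩
    refine ⟨fun σ τ => by rw [h1 σ τ, key], h2, fun p _ ι' hp => ?_, fun g => ?_⟩
    · obtain ⟨v, hv⟩ := h3 p ι' hp
      exact ⟨v, fun σ hσ => by rw [hv σ hσ, key]⟩
    · obtain ⟨x, hx⟩ := key3 g
      obtain ⟨y, hy, hy'⟩ := h4 g
      refine ⟨x • y, L.smul_mem x hy, fun δ h hh => ?_⟩
      rw [Pi.smul_apply, hy' δ h hh, ← (hx _).2]
  · rintro ⟨h1, h2, h3, h4⟩
    refine ⟨fun σ τ => by rw [h1 σ τ, key], h2, fun p _ ι' hp => ?_, fun g => ?_⟩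
    · obtain ⟨v, hv⟩ := h3 p ι' hp
      exact ⟨v, fun σ hσ => by rw [hv σ hσ, key]⟩
    · obtain ⟨x, hx⟩ := key3 g
      obtain ⟨y, hy, hy'⟩ := h4 g
      refine ⟨x • y, L.smul_mem x hy, fun δ h hh => ?_⟩
      rw [Pi.smul_apply, hy' δ h hh, ← (hx _).1]

/-- **The decomposition of the Selmer group over the quadratic field `ℚ(t)`.** -/
theorem decomp (h2 : (2 : E) ≠ 0) (hρ : ∀ i j, Continuous fun σ =>
    (ρ σ : Matrix (Fin n) (Fin n) A) i j) (hs : Sq s) (ht : Sq t) {c : GQ} (hc : c ∉ GF t)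
    (hDs : D ≤ GF s) (hDt : D ≤ GF t)
    (hL : ∀ v : Fin n → E, (fun δ : D => mat E ρ δ *ᵥ v - v) ∈ L) :
    Nonempty (Q (selH ρ s (GF t) D L) (Cob (Mh E ρ hs) (GF t)) ≃ₗ[E]
      Q (selG ρ s D L) (CobG (Mh E ρ hs)) × Q (selG ρ (s * t) D L) (CobG (Mh E ρ (hs.mul ht)))) := by
  have hi := index_GF ht hc
  have hn : (GF t).Normal := by
    have : Fact (Sq t) := ⟨ht⟩
    infer_instance
  have hDst : D ≤ GF (s * t) := by
    intro σ hσ
    rw [mem_GF_sgn, hs.sgn_st ht, mem_GF_sgn.1 (hDs hσ), mem_GF_sgn.1 (hDt hσ), one_mul]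
  refine equiv h2 hi hc ?_ ?_ ?_ ?_ ?_ ?_ ?_ ?_
  · intro σ hσ
    rw [Mh_apply, Mh_apply, tw_st E ρ hs ht, mem_GF_sgn.1 hσ]
    simp
  · intro σ hσ
    rw [Mh_apply, Mh_apply, tw_st E ρ hs ht, sgn_not hσ]
    simp
  · intro a ha
    exact ha.1
  · intro a ha
    exact ha.1
  · intro a ha
    exact res_mem hs hDs hL ha
  · intro a ha
    rw [← selH_st hs ht]
    exact res_mem (hs.mul ht) hDst hL ha
  · intro z hz
    exact cor_mem' h2 hρ hs hi hn (isOpen_GF t) hc hDt hz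
  · intro z hz
    rw [← selH_st hs ht] at hz
    exact cor_mem' h2 hρ (hs.mul ht) hi hn (isOpen_GF t) hc hDt hz

end facts

end Pool.Agent.H55.PR
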